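import Mathlib

set_option autoImplicit false

/-!
MODULE S1/ABd (S-M, only Mathlib). Elementary inequalities.
-/

namespace Pool.Agent.Work.MP_f2148a_nt.M56

theorem a_bound {a b l c κ : ℝ} (hl : |l| ≤ 1) (hc : |c| ≤ 1) (hb : |b| ≤ 1 / 100)
    (hκ : 1 / 2 ≤ κ) (hκ' : κ ≤ 2) (h : a ^ 3 + 3 * l * a * b ^ 2 + c * b ^ 3 = κ) :
    3 / 4 ≤ a ∧ a ≤ 4 / 3 ∧ |κ - a ^ 3| ≤ 1 / 2000 := by
  have hb2 : |b ^ 2| ≤ 1 / 10000 := by
    rw [abs_pow]
    calc |b| ^ 2 ≤ (1 / 100 : ℝ) ^ 2 := pow_le_pow_left₀ (abs_nonneg b) hb 2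
      _ = 1 / 10000 := by norm_num
  have hb3 : |b ^ 3| ≤ 1 / 1000000 := by
    rw [abs_pow]
    calc |b| ^ 3 ≤ (1 / 100 : ℝ) ^ 3 := pow_le_pow_left₀ (abs_nonneg b) hb 3
      _ = 1 / 1000000 := by norm_num
  have hu : |l * b ^ 2| ≤ 1 / 10000 := by
    rw [abs_mul]
    calc |l| * |b ^ 2| ≤ 1 * (1 / 10000) :=
        mul_le_mul hl hb2 (abs_nonneg _) (by norm_num)
      _ = 1 / 10000 := by norm_num
  have hv : |c * b ^ 3| ≤ 1 / 1000000 := by
    rw [abs_mul]
    calc |c| * |b ^ 3| ≤ 1 * (1 / 1000000) :=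
        mul_le_mul hc hb3 (abs_nonneg _) (by norm_num)
      _ = 1 / 1000000 := by norm_num
  obtain ⟨u1, u2⟩ := abs_le.mp hu
  obtain ⟨v1, v2⟩ := abs_le.mp hv
  have hE : a ^ 3 + 3 * (l * b ^ 2) * a + c * b ^ 3 = κ := by rw [← h]; ring
  generalize l * b ^ 2 = u at *
  generalize c * b ^ 3 = v at *
  have h1 : 3 / 4 ≤ a := by
    by_contra hlt
    push Not at hlt
    rcases le_or_gt 0 a with ha | ha
    · have e1 : a ^ 3 ≤ 27 / 64 := by
        have := pow_le_pow_left₀ ha hlt.le 3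
        calc a ^ 3 ≤ (3 / 4 : ℝ) ^ 3 := this
          _ = 27 / 64 := by norm_num
      have e2 : u * a ≤ 1 / 10000 * (3 / 4) := by
        calc u * a ≤ 1 / 10000 * a := mul_le_mul_of_nonneg_right u2 ha
          _ ≤ 1 / 10000 * (3 / 4) := by linarith
      linarith
    · have e3 : 0 < -a := by linarith
      have e2 : u * a ≤ 1 / 10000 * (-a) := by nlinarith
      rcases le_or_gt (-a) 1 with h4 | h4
      · have : a ^ 3 ≤ 0 := by
          have : a ^ 3 = -((-a) ^ 3) := by ring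
          rw [this]
          have := pow_pos e3 3
          linarith
        nlinarith
      · have : a ^ 3 ≤ -(-a) := by
          have h5 : 1 ≤ a ^ 2 := by nlinarith
          nlinarith
        nlinarith
  have h2 : a ≤ 4 / 3 := by
    by_contra hlt
    push Not at hlt
    have e2 : -(1 / 10000) * a ≤ u * a := mul_le_mul_of_nonneg_right (by linarith) (by linarith)
    have e3 : (16 / 9 : ℝ) ≤ a ^ 2 := by nlinarith
    have e4 : (16 / 9 : ℝ) * a ≤ a ^ 3 := by nlinarith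
    nlinarith
  refine ⟨h1, h2, ?_⟩
  have ha0 : 0 ≤ a := by linarith
  have e1 : -(1 / 10000) * a ≤ u * a := mul_le_mul_of_nonneg_right (by linarith) ha0
  have e2 : u * a ≤ 1 / 10000 * a := mul_le_mul_of_nonneg_right u2 ha0
  rw [abs_le]
  constructor <;> nlinarith

end Pool.Agent.Work.MP_f2148a_nt.M56
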