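import Pool.Agent.Work.MP_f2148a_nt.M56.S1.Real

set_option autoImplicit false

/-!
MODULE S1/D2 (M). Size of `d₂`.  `Q1`, `Q2`, `QJ` are defined in S1/Real.

PROOF. `a³ ≥ κ - 1/2000 ≥ 0.4995` so `a ≥ 0.793`; `a ≤ 4/3`. `b² ≤ 10⁻⁴`, `|b|³ ≤ 10⁻⁶`, `b⁴ ≤ 10⁻⁸`, `|b|⁵ ≤ 10⁻¹⁰`.
(1) `Q1 = a⁴ - 6la²b² - 2cab³ - 3l²b⁴`, so `|Q1 - a⁴| ≤ 0.0012` and `Q1 ≥ 0.39`.
(2) `|Q2| ≤ 2a³|b| + b⁴ ≤ 0.0475`.  Hence `|d₁| Q1 = |e - d₂ Q2| ≤ e + 0.0475 |d₂|`, `|d₁| ≤ 3 e + 0.13 |d₂|`.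
(3) Expanding (`ring`): `QJ = d₂ C₂ + d₁ C₁` with
  `C₂ = 6a⁵ - 30la³b² - 30ca²b³ - 12lcb⁵`,  `|C₂ - 6a⁵| ≤ 0.0072`,
  `C₁ = -60la⁴b - 30ca³b² + 30lcab⁴ + (6c² - 36l³)b⁵`,  `|C₁| ≤ 1.92`.
(4) So `|6σκ² - 6a⁵ d₂| ≤ 0.0072 |d₂| + 1.92 (3e + 0.13 |d₂|) ≤ 0.26 |d₂| + 5.8 e ≤ 0.26 |d₂| + 0.0058 σ`
   (`e ≤ 1/1000 ≤ σ/1000`).
(5) `d₂ > 0`: otherwise `6σκ² ≤ 6a⁵d₂ + 0.26|d₂| + 0.0058σ ≤ 0.0058 σ` (as `6a⁵ ≥ 0.26`), but `6κ² ≥ 1.5`.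
(6) Upper bound: `d₂ (6a⁵ - 0.26) ≤ 6σκ² + 0.0058σ`, `κ ≤ a³ + 0.0005`, `κ² ≤ a⁶ + 0.0025`, so it is enough that
  `6a⁶ + 0.015 + 0.0058 ≤ 12a⁵ - 0.52`, i.e. `6a⁵(2 - a) ≥ 0.541`; true since `a⁵ ≥ 0.31` and `2 - a ≥ 2/3`.
(7) Lower bound: `6σκ² ≤ d₂ (6a⁵ + 0.26) + 0.0058σ`. If `d₂ < σ/2` then `6κ² < 3a⁵ + 0.13 + 0.0058`; but
  `κ ≥ a³ - 0.0005`, `κ² ≥ a⁶ - 0.0025`, `6a⁶ - 3a⁵ = 3a⁵(2a - 1) ≥ 3·0.31·0.586 ≥ 0.54 ≥ 0.015 + 0.1358`.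
(Numerical constants may be chosen differently; only the statement counts. `a⁵ ≥ 0.31` from `a ≥ 0.793`.)
-/

namespace Pool.Agent.Work.MP_f2148a_nt.M56

private theorem d2_aux {a b l c : ℝ} (hl : |l| ≤ 1) (hc : |c| ≤ 1) (hb : |b| ≤ 1 / 100)
    (ha : 793 / 1000 ≤ a) (ha' : a ≤ 4 / 3) :
    39 / 100 ≤ Q1 l c a b ∧ |Q2 c a b| ≤ 475 / 10000 ∧
    ∃ C1 C2 : ℝ, |C1| ≤ 192 / 100 ∧ |C2 - 6 * a ^ 5| ≤ 72 / 10000 ∧
      ∀ d₁ d₂ : ℝ, QJ l c d₁ d₂ a b = d₂ * C2 + d₁ * C1 := by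
  have hb2 : |b ^ 2| ≤ 1 / 10000 := by
    rw [abs_pow]
    calc |b| ^ 2 ≤ (1 / 100 : ℝ) ^ 2 := pow_le_pow_left₀ (abs_nonneg b) hb 2
      _ = 1 / 10000 := by norm_num
  have hb3 : |b ^ 3| ≤ 1 / 1000000 := by
    rw [abs_pow]
    calc |b| ^ 3 ≤ (1 / 100 : ℝ) ^ 3 := pow_le_pow_left₀ (abs_nonneg b) hb 3
      _ = 1 / 1000000 := by norm_num
  have hp : |l * b ^ 2| ≤ 1 / 10000 := by
    rw [abs_mul]
    calc |l| * |b ^ 2| ≤ 1 * (1 / 10000) :=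
        mul_le_mul hl hb2 (abs_nonneg _) (by norm_num)
      _ = 1 / 10000 := by norm_num
  have hn : |c * b ^ 2| ≤ 1 / 10000 := by
    rw [abs_mul]
    calc |c| * |b ^ 2| ≤ 1 * (1 / 10000) :=
        mul_le_mul hc hb2 (abs_nonneg _) (by norm_num)
      _ = 1 / 10000 := by norm_num
  have hq : |c * b ^ 3| ≤ 1 / 1000000 := by
    rw [abs_mul]
    calc |c| * |b ^ 3| ≤ 1 * (1 / 1000000) :=
        mul_le_mul hc hb3 (abs_nonneg _) (by norm_num)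
      _ = 1 / 1000000 := by norm_num
  have hm : |l * b| ≤ 1 / 100 := by
    rw [abs_mul]
    calc |l| * |b| ≤ 1 * (1 / 100) :=
        mul_le_mul hl hb (abs_nonneg _) (by norm_num)
      _ = 1 / 100 := by norm_num
  have ha0 : (0 : ℝ) ≤ a := by linarith
  have a2 : a ^ 2 ≤ 16 / 9 := by
    calc a ^ 2 ≤ (4 / 3 : ℝ) ^ 2 := pow_le_pow_left₀ ha0 ha' 2
      _ = 16 / 9 := by norm_num
  have a3 : a ^ 3 ≤ 64 / 27 := by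
    calc a ^ 3 ≤ (4 / 3 : ℝ) ^ 3 := pow_le_pow_left₀ ha0 ha' 3
      _ = 64 / 27 := by norm_num
  have a4 : a ^ 4 ≤ 256 / 81 := by
    calc a ^ 4 ≤ (4 / 3 : ℝ) ^ 4 := pow_le_pow_left₀ ha0 ha' 4
      _ = 256 / 81 := by norm_num
  have a4' : 3954 / 10000 ≤ a ^ 4 := by
    calc (3954 / 10000 : ℝ) ≤ (793 / 1000) ^ 4 := by norm_num
      _ ≤ a ^ 4 := pow_le_pow_left₀ (by norm_num) ha 4
  have key : ∀ {x y s t : ℝ}, |x| ≤ s → |y| ≤ t → |x * y| ≤ s * t := by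
    intro x y s t hx hy
    rw [abs_mul]
    exact mul_le_mul hx hy (abs_nonneg _) (le_trans (abs_nonneg _) hx)
  have A1 : |a| ≤ 4 / 3 := by rw [abs_of_nonneg ha0]; exact ha'
  have A2 : |a ^ 2| ≤ 16 / 9 := by rw [abs_of_nonneg (by positivity)]; exact a2
  have A3 : |a ^ 3| ≤ 64 / 27 := by rw [abs_of_nonneg (by positivity)]; exact a3
  have A4 : |a ^ 4| ≤ 256 / 81 := by rw [abs_of_nonneg (by positivity)]; exact a4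
  have t1 := abs_le.mp (key hp A2)
  have t2 := abs_le.mp (key hq A1)
  have t3 := abs_le.mp (key hp hp)
  have t4 := abs_le.mp (key A3 hb)
  have t5 := abs_le.mp (key hq hb)
  have t6 := abs_le.mp (key hp A3)
  have t7 := abs_le.mp (key hq A2)
  have t8 := abs_le.mp (key hp hq)
  have t9 := abs_le.mp (key A4 hm)
  have t10 := abs_le.mp (key A3 hn)
  have t11 := abs_le.mp (key (key A1 hp) hn)
  have t12 := abs_le.mp (key hq hn)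
  have t13 := abs_le.mp (key hm (key hp hp))
  refine ⟨?_, ?_, -60 * (a ^ 4 * (l * b)) - 30 * (a ^ 3 * (c * b ^ 2))
    + 30 * (a * (l * b ^ 2) * (c * b ^ 2)) + 6 * (c * b ^ 3 * (c * b ^ 2))
    - 36 * (l * b * (l * b ^ 2 * (l * b ^ 2))),
    6 * a ^ 5 - 30 * (l * b ^ 2 * a ^ 3) - 30 * (c * b ^ 3 * a ^ 2)
      - 12 * (l * b ^ 2 * (c * b ^ 3)), ?_, ?_, ?_⟩
  · have : Q1 l c a b = a ^ 4 - 6 * (l * b ^ 2 * a ^ 2) - 2 * (c * b ^ 3 * a)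
        - 3 * (l * b ^ 2 * (l * b ^ 2)) := by unfold Q1; ring
    rw [this]
    linarith [t1.2, t2.2, t3.2]
  · have : Q2 c a b = 2 * (a ^ 3 * b) - c * b ^ 3 * b := by unfold Q2; ring
    rw [this, abs_le]
    constructor <;> linarith [t4.1, t4.2, t5.1, t5.2]
  · rw [abs_le]
    constructor <;> linarith [t9.1, t9.2, t10.1, t10.2, t11.1, t11.2, t12.1, t12.2, t13.1, t13.2]
  · rw [abs_le]
    constructor <;> linarith [t6.1, t6.2, t7.1, t7.2, t8.1, t8.2]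
  · intro d₁ d₂
    unfold QJ
    ring

theorem d2_est {a b l c κ d₁ d₂ e σ : ℝ} (hl : |l| ≤ 1) (hc : |c| ≤ 1) (hb : |b| ≤ 1 / 100)
    (hκ : 1 / 2 ≤ κ) (ha : 3 / 4 ≤ a) (ha' : a ≤ 4 / 3)
    (hκa : |κ - a ^ 3| ≤ 1 / 2000) (he : 0 ≤ e) (he' : e ≤ 1 / 1000) (hσ : 1 ≤ σ)
    (h1 : d₁ * Q1 l c a b + d₂ * Q2 c a b = e) (h2 : QJ l c d₁ d₂ a b = 6 * σ * κ ^ 2) :
    σ / 2 ≤ d₂ ∧ d₂ ≤ 2 * σ := by
  obtain ⟨k1, k2⟩ := abs_le.mp hκa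
  have ha3 : 4995 / 10000 ≤ a ^ 3 := by linarith
  have hA : 793 / 1000 ≤ a := by
    by_contra hlt
    push Not at hlt
    have : a ^ 3 ≤ (793 / 1000) ^ 3 := pow_le_pow_left₀ (by linarith) hlt.le 3
    norm_num at this
    linarith
  obtain ⟨q1, q2, C1, C2, c1, c2, hJ⟩ := d2_aux hl hc hb hA ha'
  rw [hJ] at h2
  have ha0 : (0 : ℝ) ≤ a := by linarith
  have a5 : 31 / 100 ≤ a ^ 5 := by
    calc (31 / 100 : ℝ) ≤ (793 / 1000) ^ 5 := by norm_num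
      _ ≤ a ^ 5 := pow_le_pow_left₀ (by norm_num) hA 5
  have a3u : a ^ 3 ≤ 64 / 27 := by
    calc a ^ 3 ≤ (4 / 3 : ℝ) ^ 3 := pow_le_pow_left₀ ha0 ha' 3
      _ = 64 / 27 := by norm_num
  -- bound on d₁
  have e1 : |d₁| * (39 / 100) ≤ e + 475 / 10000 * |d₂| := by
    have : |d₁| * Q1 l c a b = |e - d₂ * Q2 c a b| := by
      rw [← h1, add_sub_cancel_right, abs_mul, abs_of_nonneg (by linarith : (0 : ℝ) ≤ Q1 l c a b)]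
    calc |d₁| * (39 / 100) ≤ |d₁| * Q1 l c a b := mul_le_mul_of_nonneg_left q1 (abs_nonneg _)
      _ = |e - d₂ * Q2 c a b| := this
      _ ≤ |e| + |d₂ * Q2 c a b| := abs_sub _ _
      _ = e + |d₂| * |Q2 c a b| := by rw [abs_of_nonneg he, abs_mul]
      _ ≤ e + |d₂| * (475 / 10000) := by
        have := mul_le_mul_of_nonneg_left q2 (abs_nonneg d₂)
        linarith
      _ = e + 475 / 10000 * |d₂| := by ring
  have e2 : |d₁| ≤ 3 * e + 13 / 100 * |d₂| := by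
    have := abs_nonneg d₂
    linarith
  have e3 : |6 * σ * κ ^ 2 - 6 * a ^ 5 * d₂| ≤ 26 / 100 * |d₂| + 58 / 10000 * σ := by
    have : 6 * σ * κ ^ 2 - 6 * a ^ 5 * d₂ = d₂ * (C2 - 6 * a ^ 5) + d₁ * C1 := by
      rw [← h2]; ring
    rw [this]
    calc |d₂ * (C2 - 6 * a ^ 5) + d₁ * C1| ≤ |d₂ * (C2 - 6 * a ^ 5)| + |d₁ * C1| := abs_add_le _ _
      _ = |d₂| * |C2 - 6 * a ^ 5| + |d₁| * |C1| := by rw [abs_mul, abs_mul]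
      _ ≤ |d₂| * (72 / 10000) + |d₁| * (192 / 100) := by
        have i1 := mul_le_mul_of_nonneg_left c2 (abs_nonneg d₂)
        have i2 := mul_le_mul_of_nonneg_left c1 (abs_nonneg d₁)
        linarith
      _ ≤ 26 / 100 * |d₂| + 58 / 10000 * σ := by
        have := abs_nonneg d₂
        linarith
  obtain ⟨f1, f2⟩ := abs_le.mp e3
  have hσ0 : 0 < σ := by linarith
  have hκ2 : 1 / 4 ≤ κ ^ 2 := by nlinarith
  -- positivity of d₂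
  have hd : 0 < d₂ := by
    by_contra hneg
    push Not at hneg
    rw [abs_of_nonpos hneg] at f1 f2
    have g1 : 6 * a ^ 5 * d₂ ≤ 6 * (31 / 100) * d₂ := by nlinarith
    have g2 : 6 * σ * (1 / 4) ≤ 6 * σ * κ ^ 2 := by nlinarith
    nlinarith
  rw [abs_of_pos hd] at f1 f2
  have hk0 : 0 ≤ κ := by linarith
  have a6 : a ^ 6 = a ^ 3 * a ^ 3 := by ring
  have u1 : κ ^ 2 ≤ a ^ 6 + 25 / 10000 := by
    have : κ ≤ a ^ 3 + 1 / 2000 := by linarith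
    have h3 : κ ^ 2 ≤ (a ^ 3 + 1 / 2000) ^ 2 := pow_le_pow_left₀ hk0 this 2
    nlinarith
  have u2 : a ^ 6 - 25 / 10000 ≤ κ ^ 2 := by
    have h4 : a ^ 3 - 1 / 2000 ≤ κ := by linarith
    have h3 : (a ^ 3 - 1 / 2000) ^ 2 ≤ κ ^ 2 := pow_le_pow_left₀ (by linarith) h4 2
    nlinarith
  have a6' : a ^ 6 = a ^ 5 * a := by ring
  constructor
  · by_contra hlt
    push Not at hlt
    have g1 : 6 * σ * (a ^ 6 - 25 / 10000) ≤ 6 * σ * κ ^ 2 :=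
      mul_le_mul_of_nonneg_left u2 (by positivity)
    have g2 : (6 * a ^ 5 + 26 / 100) * d₂ ≤ (6 * a ^ 5 + 26 / 100) * (σ / 2) :=
      mul_le_mul_of_nonneg_left hlt.le (by positivity)
    have g3 : σ * (6 * (a ^ 6 - 25 / 10000)) ≤ σ * (3 * a ^ 5 + 13 / 100 + 58 / 10000) := by
      nlinarith
    have g4 := le_of_mul_le_mul_left g3 hσ0
    have g5 : 31 / 100 * (2 * a - 1) ≤ a ^ 5 * (2 * a - 1) :=
      mul_le_mul_of_nonneg_right a5 (by linarith)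
    rw [a6'] at g4
    nlinarith
  · by_contra hlt
    push Not at hlt
    have g1 : 6 * σ * κ ^ 2 ≤ 6 * σ * (a ^ 6 + 25 / 10000) :=
      mul_le_mul_of_nonneg_left u1 (by positivity)
    have g2 : (6 * a ^ 5 - 26 / 100) * (2 * σ) ≤ (6 * a ^ 5 - 26 / 100) * d₂ :=
      mul_le_mul_of_nonneg_left hlt.le (by linarith)
    have g3 : σ * (2 * (6 * a ^ 5 - 26 / 100)) ≤ σ * (6 * (a ^ 6 + 25 / 10000) + 58 / 10000) := by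
      nlinarith
    have g4 := le_of_mul_le_mul_left g3 hσ0
    have g5 : 31 / 100 * (2 - a) ≤ a ^ 5 * (2 - a) :=
      mul_le_mul_of_nonneg_right a5 (by linarith)
    rw [a6'] at g4
    nlinarith

end Pool.Agent.Work.MP_f2148a_nt.M56
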