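import Pool.Agent.Work.MP_f2148a_nt.M56.S1.Sz

set_option autoImplicit false

/-!
MODULE S1/DL (M). Upper bound `Δ² ≤ A`, where `Δ = ατ³`.

PROOF. Abbreviate `L = w(2t-w)`, `C = 2w³-6tw²-4η`. It is enough to show `Δ⁴ = α⁴τ¹² ≤ A²` (then
`(Δ²)² ≤ A²`, `abs_le_of_sq_le_sq'` or `pow_le_pow_left` contrapositive, `A ≥ 0`).
Case `|L| = τ⁴`: `α⁴τ¹² = α⁴|L|³ ≤ (2001/1000)³ α⁴t³|w|³`. Let `P = α⁴t³|w|³`. `P² = α²·(α²w²)³·t⁶`, and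
`α²w² ≤ A²/(9t³)` (`w_le`), so `P² ≤ α²·A⁶/(729 t⁹)·t⁶ = α²A⁶/(729t³) ≤ A⁴/729` (`a_le : α²A² ≤ t³`). So
`P ≤ A²/27` and `(2001/1000)³/27 ≤ 1`.
Case `|C| = τ⁶`: `α⁴τ¹² = α⁴C²`, `C² ≤ 2(6001/1000)²t²w⁴ + 32η²` (sizes, `(u+v)² ≤ 2u²+2v²`), so
`α⁴C² ≤ 72.1 t²(α²w²)² + 32 α⁴η²`. First term `≤ 72.1 t² A⁴/(81t⁶) ≤ A⁴/t⁴ ≤ A²/2` (as `A² ≤ t²/10⁶`, `t ≥ 1`).
Second: `|η| ≤ K/t³`, `α⁴ ≤ t⁶/A⁴`: `32α⁴η² ≤ 32K²/A⁴ ≤ A²/2` (`KA : 64K² ≤ A⁶`). Sum `≤ A²`.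
(Avoid divisions: e.g. multiply by `t³`, `t⁶`, `A⁴` where needed.)
-/

namespace Pool.Agent.Work.MP_f2148a_nt.M56

theorem D_up {K A B t α w η τ : ℝ} (h : Num K A B t α w η) (hτ : 0 < τ)
    (hmax : |w * (2 * t - w)| = τ ^ 4 ∨ |2 * w ^ 3 - 6 * t * w ^ 2 - 4 * η| = τ ^ 6) :
    (α * τ ^ 3) ^ 2 ≤ A := by
  obtain ⟨-, s2, -, s4⟩ := sizes h
  have hA : 2 ≤ A := h.A_ge
  have hA0 : 0 < A := by linarith
  have ht : 10000 ≤ t := h.t_ge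
  have ht0 : 0 < t := by linarith
  have hα : 1 ≤ α := h.a_ge
  have hα0 : 0 < α := by linarith
  have ht3 : 0 < t ^ 3 := by positivity
  have hK : 1 ≤ K := h.K_ge
  have hw := h.w_le
  have ha := h.a_le
  refine le_of_sq_le_sq ?_ hA0.le
  have hgoal : ((α * τ ^ 3) ^ 2) ^ 2 = α ^ 4 * τ ^ 12 := by ring
  rw [hgoal]
  -- W = α² w² t³ , 9 W ≤ A²
  have hW : 9 * (α ^ 2 * w ^ 2 * t ^ 3) ≤ A ^ 2 := by linarith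
  have hW0 : 0 ≤ α ^ 2 * w ^ 2 * t ^ 3 := by positivity
  rcases hmax with hm | hm
  · -- first case
    have e1 : α ^ 4 * τ ^ 12 = α ^ 4 * |w * (2 * t - w)| ^ 3 := by rw [hm]; ring
    rw [e1]
    have e2 : |w * (2 * t - w)| ^ 3 ≤ (2001 / 1000 * (t * |w|)) ^ 3 :=
      pow_le_pow_left₀ (abs_nonneg _) s2 3
    have e3 : α ^ 4 * |w * (2 * t - w)| ^ 3 ≤ (2001 / 1000) ^ 3 * (α ^ 4 * t ^ 3 * |w| ^ 3) := by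
      calc α ^ 4 * |w * (2 * t - w)| ^ 3 ≤ α ^ 4 * (2001 / 1000 * (t * |w|)) ^ 3 :=
          mul_le_mul_of_nonneg_left e2 (by positivity)
        _ = (2001 / 1000) ^ 3 * (α ^ 4 * t ^ 3 * |w| ^ 3) := by ring
    have hw6 : |w| ^ 6 = w ^ 6 := by
      have : |w| ^ 6 = (|w| ^ 2) ^ 3 := by ring
      rw [this, sq_abs]; ring
    have e4 : α ^ 4 * t ^ 3 * |w| ^ 3 ≤ A ^ 2 / 27 := by
      refine le_of_sq_le_sq ?_ (by positivity)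
      have i1 : (α ^ 4 * t ^ 3 * |w| ^ 3) ^ 2 * t ^ 3 = α ^ 2 * (α ^ 2 * w ^ 2 * t ^ 3) ^ 3 := by
        calc (α ^ 4 * t ^ 3 * |w| ^ 3) ^ 2 * t ^ 3 = α ^ 8 * t ^ 9 * |w| ^ 6 := by ring
          _ = α ^ 8 * t ^ 9 * w ^ 6 := by rw [hw6]
          _ = α ^ 2 * (α ^ 2 * w ^ 2 * t ^ 3) ^ 3 := by ring
      have i2 : (α ^ 2 * w ^ 2 * t ^ 3) ^ 3 ≤ (A ^ 2 / 9) ^ 3 :=
        pow_le_pow_left₀ hW0 (by linarith) 3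
      have i3 : α ^ 2 * (α ^ 2 * w ^ 2 * t ^ 3) ^ 3 ≤ α ^ 2 * (A ^ 2 / 9) ^ 3 :=
        mul_le_mul_of_nonneg_left i2 (by positivity)
      have i4 : α ^ 2 * (A ^ 2 / 9) ^ 3 = (α ^ 2 * A ^ 2) * (A ^ 4 / 729) := by ring
      have i5 : (α ^ 2 * A ^ 2) * (A ^ 4 / 729) ≤ t ^ 3 * (A ^ 4 / 729) :=
        mul_le_mul_of_nonneg_right ha (by positivity)
      have i6 : (α ^ 4 * t ^ 3 * |w| ^ 3) ^ 2 * t ^ 3 ≤ (A ^ 2 / 27) ^ 2 * t ^ 3 := by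
        rw [i1]
        calc α ^ 2 * (α ^ 2 * w ^ 2 * t ^ 3) ^ 3 ≤ t ^ 3 * (A ^ 4 / 729) := by
              rw [i4] at i3; linarith
          _ = (A ^ 2 / 27) ^ 2 * t ^ 3 := by ring
      exact le_of_mul_le_mul_right i6 ht3
    have : (2001 / 1000 : ℝ) ^ 3 * (A ^ 2 / 27) ≤ A ^ 2 := by
      have hA2 : 0 ≤ A ^ 2 := by positivity
      have : (2001 / 1000 : ℝ) ^ 3 ≤ 27 := by norm_num
      nlinarith
    have i7 : (2001 / 1000 : ℝ) ^ 3 * (α ^ 4 * t ^ 3 * |w| ^ 3) ≤ (2001 / 1000 : ℝ) ^ 3 * (A ^ 2 / 27) :=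
      mul_le_mul_of_nonneg_left e4 (by norm_num)
    linarith
  · -- second case
    have e1 : α ^ 4 * τ ^ 12 = α ^ 4 * |2 * w ^ 3 - 6 * t * w ^ 2 - 4 * η| ^ 2 := by rw [hm]; ring
    rw [e1]
    have e2 : |2 * w ^ 3 - 6 * t * w ^ 2 - 4 * η| ^ 2 ≤
        (6001 / 1000 * (t * w ^ 2) + 4 * |η|) ^ 2 := pow_le_pow_left₀ (abs_nonneg _) s4 2
    have e3 : (6001 / 1000 * (t * w ^ 2) + 4 * |η|) ^ 2 ≤
        2 * (6001 / 1000) ^ 2 * (t ^ 2 * w ^ 4) + 32 * |η| ^ 2 := by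
      nlinarith [sq_nonneg (6001 / 1000 * (t * w ^ 2) - 4 * |η|)]
    have e4 : α ^ 4 * |2 * w ^ 3 - 6 * t * w ^ 2 - 4 * η| ^ 2 ≤
        2 * (6001 / 1000) ^ 2 * (α ^ 4 * (t ^ 2 * w ^ 4)) + 32 * (α ^ 4 * |η| ^ 2) := by
      calc α ^ 4 * |2 * w ^ 3 - 6 * t * w ^ 2 - 4 * η| ^ 2
          ≤ α ^ 4 * (2 * (6001 / 1000) ^ 2 * (t ^ 2 * w ^ 4) + 32 * |η| ^ 2) :=
            mul_le_mul_of_nonneg_left (le_trans e2 e3) (by positivity)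
        _ = 2 * (6001 / 1000) ^ 2 * (α ^ 4 * (t ^ 2 * w ^ 4)) + 32 * (α ^ 4 * |η| ^ 2) := by ring
    -- first term
    have f1 : α ^ 4 * (t ^ 2 * w ^ 4) * t ^ 4 = (α ^ 2 * w ^ 2 * t ^ 3) ^ 2 := by ring
    have f2 : (α ^ 2 * w ^ 2 * t ^ 3) ^ 2 ≤ (A ^ 2 / 9) ^ 2 := pow_le_pow_left₀ hW0 (by linarith) 2
    have hAt : A ≤ t / 1000 := by linarith [h.A_le]
    have hA2t : A ^ 2 ≤ (t / 1000) ^ 2 := pow_le_pow_left₀ hA0.le hAt 2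
    have ht4 : 0 < t ^ 4 := by positivity
    have f3 : α ^ 4 * (t ^ 2 * w ^ 4) ≤ A ^ 2 / 1000 := by
      have : α ^ 4 * (t ^ 2 * w ^ 4) * t ^ 4 ≤ A ^ 2 / 1000 * t ^ 4 := by
        rw [f1]
        have j1 : (A ^ 2 / 9) ^ 2 ≤ A ^ 2 * (t / 1000) ^ 2 := by
          have : A ^ 2 * A ^ 2 ≤ A ^ 2 * (t / 1000) ^ 2 :=
            mul_le_mul_of_nonneg_left hA2t (by positivity)
          have h0 : 0 ≤ A ^ 2 * A ^ 2 := by positivity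
          calc (A ^ 2 / 9) ^ 2 = A ^ 2 * A ^ 2 / 81 := by ring
            _ ≤ A ^ 2 * A ^ 2 := by linarith
            _ ≤ _ := this
        have j2 : A ^ 2 * (t / 1000) ^ 2 ≤ A ^ 2 / 1000 * t ^ 4 := by
          have k1 : (t / 1000) ^ 2 ≤ 1 / 1000 * t ^ 4 := by
            have : 1 ≤ t ^ 2 := by nlinarith
            nlinarith [sq_nonneg t]
          calc A ^ 2 * (t / 1000) ^ 2 ≤ A ^ 2 * (1 / 1000 * t ^ 4) :=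
              mul_le_mul_of_nonneg_left k1 (by positivity)
            _ = A ^ 2 / 1000 * t ^ 4 := by ring
        linarith
      exact le_of_mul_le_mul_right this ht4
    -- second term
    have hη := h.eta_le
    have g1 : (|η| * t ^ 3) ^ 2 ≤ K ^ 2 := pow_le_pow_left₀ (by positivity) hη 2
    have g2 : (α ^ 2 * A ^ 2) ^ 2 ≤ (t ^ 3) ^ 2 := pow_le_pow_left₀ (by positivity) ha 2
    have hA4 : 0 < A ^ 4 := by positivity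
    have g3 : α ^ 4 * |η| ^ 2 * A ^ 4 ≤ K ^ 2 := by
      calc α ^ 4 * |η| ^ 2 * A ^ 4 = (α ^ 2 * A ^ 2) ^ 2 * |η| ^ 2 := by ring
        _ ≤ (t ^ 3) ^ 2 * |η| ^ 2 := mul_le_mul_of_nonneg_right g2 (by positivity)
        _ = (|η| * t ^ 3) ^ 2 := by ring
        _ ≤ K ^ 2 := g1
    have g4 : 32 * (α ^ 4 * |η| ^ 2) ≤ A ^ 2 / 2 := by
      have : 32 * (α ^ 4 * |η| ^ 2) * A ^ 4 ≤ A ^ 2 / 2 * A ^ 4 := by
        have := h.KA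
        nlinarith
      exact le_of_mul_le_mul_right this hA4
    have hA2 : 0 ≤ A ^ 2 := by positivity
    have f4 : 2 * (6001 / 1000 : ℝ) ^ 2 * (α ^ 4 * (t ^ 2 * w ^ 4)) ≤
        2 * (6001 / 1000 : ℝ) ^ 2 * (A ^ 2 / 1000) := mul_le_mul_of_nonneg_left f3 (by norm_num)
    have f5 : 2 * (6001 / 1000 : ℝ) ^ 2 * (A ^ 2 / 1000) ≤ A ^ 2 / 2 := by
      nlinarith
    linarith

end Pool.Agent.Work.MP_f2148a_nt.M56
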