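import Mathlib

set_option autoImplicit false

/-!
MODULE S1/Dir (S-M, only Mathlib). Dirichlet approximation of `3t`.

PROOF. Let `n = ⌊√(t³)/A⌋₊`. `A² ≤ t³` gives `n ≥ 1`, `n ≤ √(t³)/A`, so `n² A² ≤ t³`, and `n + 1 > √(t³)/A`, so
`t³ < (n+1)² A²`. `Real.exists_int_int_abs_mul_sub_le (3 * t) (n_pos : 0 < n)` gives integers `j`, `k` with
`0 < k ≤ n` and `|k · (3t) - j| ≤ 1/(n+1)`. Let `g = gcd (j, k) ≥ 1`, `k = g α`, `j = g j'`, `β = -j'`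
(`Int.gcd`, `Int.isCoprime_iff_gcd_eq_one`, or `exists_gcd_eq...`): `α ≥ 1`, `α ≤ k ≤ n`, `IsCoprime α β`,
`|3αt + β| = |k·3t - j|/g ≤ 1/(n+1)`, so `(3αt+β)² t³ ≤ t³/(n+1)² ≤ A²`, and `α² A² ≤ n² A² ≤ t³`.
-/

namespace Pool.Agent.Work.MP_f2148a_nt.M56

theorem dirich {A t : ℝ} (hA : 0 < A) (ht : 0 < t) (h : A ^ 2 ≤ t ^ 3) :
    ∃ α β : ℤ, 1 ≤ α ∧ IsCoprime α β ∧ (α : ℝ) ^ 2 * A ^ 2 ≤ t ^ 3 ∧
      (3 * (α : ℝ) * t + β) ^ 2 * t ^ 3 ≤ A ^ 2 := by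
  have ht3 : 0 < t ^ 3 := by positivity
  set r : ℝ := Real.sqrt (t ^ 3) with hr
  have hr0 : 0 < r := Real.sqrt_pos.2 ht3
  have hr2 : r ^ 2 = t ^ 3 := Real.sq_sqrt ht3.le
  have hAr : A ≤ r := Real.le_sqrt_of_sq_le h
  set n : ℕ := ⌊r / A⌋₊ with hn
  have hn1 : 1 ≤ n := Nat.le_floor (by
    rw [Nat.cast_one]
    exact (one_le_div hA).2 hAr)
  have hn2 : (n : ℝ) ≤ r / A := Nat.floor_le (by positivity)
  have hn3 : r / A < (n : ℝ) + 1 := Nat.lt_floor_add_one _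
  have hn2' : (n : ℝ) * A ≤ r := (le_div_iff₀ hA).1 hn2
  have hn3' : r < ((n : ℝ) + 1) * A := (div_lt_iff₀ hA).1 hn3
  obtain ⟨j, k, hk0, hkn, hjk⟩ := Real.exists_int_int_abs_mul_sub_le (3 * t) (by omega : 0 < n)
  have hg : 0 < Int.gcd k j := Int.gcd_pos_of_ne_zero_left j hk0.ne'
  obtain ⟨α, β', hc, hα, hβ⟩ : ∃ α β' : ℤ, Int.gcd α β' = 1 ∧ k = α * Int.gcd k j ∧ j = β' * Int.gcd k j := by
    obtain ⟨m', n', h1, h2, h3⟩ := Int.exists_gcd_one hg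
    exact ⟨m', n', h1, h2, h3⟩
  set g : ℤ := (Int.gcd k j : ℤ) with hgdef
  have hg1 : 1 ≤ g := by
    have : (1 : ℤ) ≤ (Int.gcd k j : ℤ) := by exact_mod_cast hg
    exact this
  have hα1 : 1 ≤ α := by
    by_contra hcon
    have h1 : α ≤ 0 := by omega
    have : k ≤ 0 := by
      rw [hα]
      exact mul_nonpos_of_nonpos_of_nonneg h1 (by omega)
    omega
  have hαk : α ≤ k := by
    rw [hα]
    nlinarith
  have hαn : (α : ℝ) ≤ n := by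
    have : α ≤ (n : ℤ) := le_trans hαk hkn
    exact_mod_cast this
  have hα0 : (0 : ℝ) < α := by
    have : (1 : ℝ) ≤ (α : ℝ) := by exact_mod_cast hα1
    linarith
  have hgr : (1 : ℝ) ≤ (g : ℝ) := by exact_mod_cast hg1
  refine ⟨α, -β', hα1, ?_, ?_, ?_⟩
  · exact (Int.isCoprime_iff_gcd_eq_one.2 hc).neg_right
  · rw [← hr2, ← mul_pow]
    apply pow_le_pow_left₀ (by positivity)
    exact le_trans (mul_le_mul_of_nonneg_right hαn hA.le) hn2'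
  · have hkr : (k : ℝ) = α * g := by exact_mod_cast hα
    have hjr : (j : ℝ) = β' * g := by exact_mod_cast hβ
    rw [hkr, hjr] at hjk
    have e1 : (α : ℝ) * g * (3 * t) - β' * g = g * (3 * α * t - β') := by ring
    rw [e1, abs_mul, abs_of_pos (by linarith : (0 : ℝ) < g)] at hjk
    have h2 : |3 * (α : ℝ) * t - β'| ≤ 1 / ((n : ℝ) + 1) := by
      refine le_trans ?_ hjk
      nlinarith [abs_nonneg (3 * (α : ℝ) * t - β')]
    have h3 : |3 * (α : ℝ) * t - β'| * r ≤ A := by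
      have hn0 : (0 : ℝ) < (n : ℝ) + 1 := by positivity
      calc |3 * (α : ℝ) * t - β'| * r ≤ 1 / ((n : ℝ) + 1) * r := mul_le_mul_of_nonneg_right h2 hr0.le
        _ ≤ 1 / ((n : ℝ) + 1) * (((n : ℝ) + 1) * A) := by
          apply mul_le_mul_of_nonneg_left hn3'.le (by positivity)
        _ = A := by field_simp
    have h4 : (3 * (α : ℝ) * t + ((-β' : ℤ) : ℝ)) ^ 2 * t ^ 3 = (|3 * (α : ℝ) * t - β'| * r) ^ 2 := by
      rw [mul_pow, sq_abs, hr2]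
      push_cast
      ring
    rw [h4]
    exact pow_le_pow_left₀ (by positivity) h3 2

end Pool.Agent.Work.MP_f2148a_nt.M56
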