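import Pool.Agent.Work.MP_f2148a_nt.M56.S1.SDefs

set_option autoImplicit false

/-!
MODULE S1/Disc1 (M). If `z⁰` has discriminant 0 then `F⁰(n,1) = 0` for an integer `n`.

PROOF. Work in `ℚ`: `ω = β/(3α)`, `L = x - ω²`, `C = 2ω³ - 6xω - 4y`. Then (field_simp, ring)
`disc (Z0 x y α β) = -27 α⁴ (4L³ + C²)`, so `4L³ + C² = 0`. Put `m = -C/(2L)` if `L ≠ 0` and `m = 0` if `L = 0`
(then `C = 0`). In both cases `m² = -L` (`C² = -4L³`, so `m² = C²/(4L²) = -L`) and `2m³ = C`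
(`2 m·m² = -2mL = C`). Hence `x = ω² - m²` and `4y = 2ω³ - 6xω - C = -4ω³ + 6m²ω - 2m³`. For `ρ = m - ω ∈ ℚ` the
identity `ρ⁴ - 6xρ² + 8yρ - 3x² = 0` holds (substitute `x`, `y`; `ring`: `x = -ρ(ω+m)`).
`ρ` is a rational root of the monic integral polynomial `T⁴ - 6xT² + 8yT - 3x²`, hence an integer (`ρ = p/q` in lowest
terms: `p⁴ = q (…)`, `q ∣ p⁴`, `q = 1`; or `IsIntegrallyClosed`/`isInteger_of_is_root_of_monic`;
e.g. `IsIntegral ℤ ρ` and `IsIntegrallyClosed.isIntegral_iff`). `F0 x y n 1 = 0`.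
-/

namespace Pool.Agent.Work.MP_f2148a_nt.M56

private lemma int_of_root {r : ℚ} {x y : ℤ}
    (h : r ^ 4 - 6 * x * r ^ 2 + 8 * y * r - 3 * x ^ 2 = 0) : ∃ n : ℤ, (n : ℚ) = r := by
  have hint : IsIntegral ℤ r := by
    refine ⟨Polynomial.X ^ 4 + (Polynomial.C (-6 * x) * Polynomial.X ^ 2
      + Polynomial.C (8 * y) * Polynomial.X + Polynomial.C (-3 * x ^ 2)), ?_, ?_⟩
    · apply Polynomial.monic_X_pow_add
      compute_degree
      norm_num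
    · simp only [Polynomial.eval₂_add, Polynomial.eval₂_mul, Polynomial.eval₂_pow,
        Polynomial.eval₂_X, Polynomial.eval₂_C, algebraMap_int_eq, Int.coe_castRingHom]
      push_cast
      linarith
  obtain ⟨n, hn⟩ := IsIntegrallyClosed.isIntegral_iff.1 hint
  exact ⟨n, by simpa using hn⟩

theorem disc_root {x y α β : ℤ} (hα : α ≠ 0) (h : (Z0 x y α β).disc = 0) :
    ∃ n : ℤ, F0 x y n 1 = 0 := by
  have ha : (α : ℚ) ≠ 0 := by exact_mod_cast hα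
  have h' : ((((Z0 x y α β).disc : ℤ)) : ℚ) = 0 := by rw [h]; simp
  simp only [Cub.disc, Z0] at h'
  push_cast at h'
  obtain ⟨w, hw⟩ : ∃ w : ℚ, w = β / (3 * α) := ⟨_, rfl⟩
  have hb : (β : ℚ) = 3 * α * w := by rw [hw]; field_simp
  rw [hb] at h'
  obtain ⟨L, hL⟩ : ∃ L : ℚ, L = x - w ^ 2 := ⟨_, rfl⟩
  obtain ⟨C, hC⟩ : ∃ C : ℚ, C = 2 * w ^ 3 - 6 * x * w - 4 * y := ⟨_, rfl⟩
  have key : (α : ℚ) ^ 4 * (4 * L ^ 3 + C ^ 2) = 0 := by
    rw [hL, hC]; linear_combination (-1 / 27 : ℚ) * h'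
  have key2 : 4 * L ^ 3 + C ^ 2 = 0 := by
    rcases mul_eq_zero.1 key with h1 | h1
    · exact absurd h1 (pow_ne_zero _ ha)
    · exact h1
  obtain ⟨m, hm1, hm2⟩ : ∃ m : ℚ, m ^ 2 = -L ∧ 2 * m ^ 3 = C := by
    by_cases hL0 : L = 0
    · refine ⟨0, by simp [hL0], ?_⟩
      have : C ^ 2 = 0 := by rw [hL0] at key2; linarith
      have : C = 0 := by simpa using this
      rw [this]; norm_num
    · have e1 : (-C / (2 * L)) ^ 2 = -L := by
        have : C ^ 2 = -(4 * L ^ 3) := by linarith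
        rw [div_pow, neg_sq, this]
        field_simp
        norm_num
      refine ⟨-C / (2 * L), e1, ?_⟩
      have : 2 * (-C / (2 * L)) ^ 3 = 2 * ((-C / (2 * L)) ^ 2) * (-C / (2 * L)) := by ring
      rw [this, e1]
      field_simp
  have hx : (x : ℚ) = w ^ 2 - m ^ 2 := by rw [hm1, hL]; ring
  have hy : 4 * (y : ℚ) = -4 * w ^ 3 + 6 * m ^ 2 * w - 2 * m ^ 3 := by
    rw [hm2, hC, hx]; ring
  have hroot : (m - w) ^ 4 - 6 * (x : ℚ) * (m - w) ^ 2 + 8 * y * (m - w) - 3 * (x : ℚ) ^ 2 = 0 := by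
    have : 8 * (y : ℚ) = 2 * (-4 * w ^ 3 + 6 * m ^ 2 * w - 2 * m ^ 3) := by rw [← hy]; ring
    rw [this, hx]; ring
  obtain ⟨n, hn⟩ := int_of_root hroot
  refine ⟨n, ?_⟩
  rw [← hn] at hroot
  have : ((F0 x y n 1 : ℤ) : ℚ) = 0 := by
    simp only [F0]; push_cast; linarith
  exact_mod_cast this

end Pool.Agent.Work.MP_f2148a_nt.M56
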