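import Pool.Agent.Work.MP_f2148a_nt.M56.S1.SDefs

set_option autoImplicit false

/-!
MODULE S1/Disc2 (M). An integral root of `F⁰` forces `x³ ≤ 10⁸ k⁴`, `k = y² - x³`.

PROOF. Put `e = x - n²`, `k = y² - x³ ≠ 0`. `F0 x y n 1 = n⁴ - 6xn² + 8yn - 3x² = 0` becomes
`8yn = 8n⁴ + 12n²e + 3e²`; squaring, `64n²k = e³ (8n² + 9e)` (linear_combination; identity
`(8n⁴+12n²e+3e²)² - 64n²(n²+e)³ = e³(8n²+9e)`).
`n ≠ 0` (else `3x² = 0`), `e ≠ 0` (else `64 n² k = 0`), so `8n² + 9e ≠ 0`, `|8n²+9e| ≥ 1`. From the first relation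
`n ∣ 3e²`, so `|n| ≤ 3e²`.
Case 1: `9|e| ≤ 4n²`. Then `|8n²+9e| ≥ 4n²`, so `64n²|k| ≥ 4n²|e|³`, `|e|³ ≤ 16|k|`. `n² ≤ 9e⁴`, `x ≤ n² + |e| ≤ 10e⁴`,
`x³ ≤ 1000 e¹² = 1000 (|e|³)⁴ ≤ 1000·16⁴ k⁴ ≤ 10⁸ k⁴`.
Case 2: `9|e| > 4n²`. Then `64n²|k| ≥ |e|³` gives `|e|³ ≤ 144|e||k|`, `e² ≤ 144|k|`; `x ≤ n² + |e| ≤ (13/4)|e|`,
`x² ≤ (169/16)·144 |k| = 1521 |k|`, so (`x ≥ 1`) `x³ ≤ x⁴ ≤ 1521² k² ≤ 10⁸ k² ≤ 10⁸ k⁴`.
-/

namespace Pool.Agent.Work.MP_f2148a_nt.M56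

theorem root_big {x y n : ℤ} (hx : 0 < x) (hk : y ^ 2 ≠ x ^ 3) (h : F0 x y n 1 = 0) :
    x ^ 3 ≤ 10 ^ 8 * (y ^ 2 - x ^ 3) ^ 4 := by
  simp only [F0] at h
  obtain ⟨e, he⟩ : ∃ e : ℤ, e = x - n ^ 2 := ⟨_, rfl⟩
  obtain ⟨k, hkd⟩ : ∃ k : ℤ, k = y ^ 2 - x ^ 3 := ⟨_, rfl⟩
  have hk0 : k ≠ 0 := by rw [hkd]; exact sub_ne_zero.2 hk
  rw [← hkd]
  have hxe : x = n ^ 2 + e := by rw [he]; ring
  have h1 : 8 * y * n = 8 * n ^ 4 + 12 * n ^ 2 * e + 3 * e ^ 2 := by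
    rw [he]; linear_combination h
  have h2 : 64 * n ^ 2 * k = e ^ 3 * (8 * n ^ 2 + 9 * e) := by
    have hsq : (8 * y * n) ^ 2 = (8 * n ^ 4 + 12 * n ^ 2 * e + 3 * e ^ 2) ^ 2 := by rw [h1]
    rw [hkd, hxe]
    linear_combination hsq
  have hn0 : n ≠ 0 := by
    rintro rfl
    have : x ^ 2 = 0 := by nlinarith
    have : x = 0 := by simpa using this
    omega
  have he0 : e ≠ 0 := by
    intro h0
    rw [h0] at h2
    have : n ^ 2 * k = 0 := by linarith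
    rcases mul_eq_zero.1 this with h3 | h3
    · exact hn0 (by simpa using h3)
    · exact hk0 h3
  have hk1 : 1 ≤ |k| := Int.one_le_abs hk0
  have he1 : 1 ≤ |e| := Int.one_le_abs he0
  have habs : 64 * n ^ 2 * |k| = |e| ^ 3 * |8 * n ^ 2 + 9 * e| := by
    have := congrArg abs h2
    rw [abs_mul, abs_mul, abs_mul, abs_pow] at this
    simpa [abs_mul, abs_pow] using this
  have hkk : |k| ^ 2 = k ^ 2 := sq_abs k
  have hn2 : 0 < n ^ 2 := by positivity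
  have hk4 : k ^ 4 = |k| ^ 4 := by rw [← abs_pow, abs_of_nonneg (by positivity)]
  rw [hk4]
  have hdvd : n ∣ 3 * e ^ 2 := ⟨8 * y - 8 * n ^ 3 - 12 * n * e, by linear_combination -h1⟩
  have hnle : |n| ≤ 3 * |e| ^ 2 := by
    have h3 : 0 < 3 * e ^ 2 := by positivity
    have h4 := Int.le_of_dvd h3 ((abs_dvd n _).2 hdvd)
    rwa [sq_abs]
  have hx1 : x ≤ n ^ 2 + |e| := by rw [hxe]; linarith [le_abs_self e]
  by_cases hc : 9 * |e| ≤ 4 * n ^ 2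
  · have h3 : 4 * n ^ 2 ≤ |8 * n ^ 2 + 9 * e| := by
      have := le_abs_self (8 * n ^ 2 + 9 * e)
      have := neg_abs_le e
      linarith
    have h4 : |e| ^ 3 ≤ 16 * |k| := by
      have h5 : |e| ^ 3 * (4 * n ^ 2) ≤ 64 * n ^ 2 * |k| := by
        rw [habs]; exact mul_le_mul_of_nonneg_left h3 (by positivity)
      have h6 : (4 * n ^ 2) * |e| ^ 3 ≤ (4 * n ^ 2) * (16 * |k|) := by linarith
      exact le_of_mul_le_mul_left h6 (by positivity)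
    have h5 : n ^ 2 ≤ 9 * |e| ^ 4 := by
      have : |n| ^ 2 ≤ (3 * |e| ^ 2) ^ 2 := pow_le_pow_left₀ (abs_nonneg n) hnle 2
      rw [sq_abs] at this
      linarith [this, (by ring : (3 * |e| ^ 2) ^ 2 = 9 * |e| ^ 4)]
    have h6 : |e| ≤ |e| ^ 4 := by
      calc |e| = |e| ^ 1 := (pow_one _).symm
        _ ≤ |e| ^ 4 := pow_le_pow_right₀ he1 (by norm_num)
    have h7 : x ≤ 10 * |e| ^ 4 := by linarith
    have h8 : x ^ 3 ≤ (10 * |e| ^ 4) ^ 3 := pow_le_pow_left₀ hx.le h7 3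
    have h9 : (|e| ^ 3) ^ 4 ≤ (16 * |k|) ^ 4 := pow_le_pow_left₀ (by positivity) h4 4
    have h10 : (10 * |e| ^ 4) ^ 3 = 1000 * (|e| ^ 3) ^ 4 := by ring
    have h11 : (16 * |k|) ^ 4 = 65536 * |k| ^ 4 := by ring
    have h12 : 0 ≤ |k| ^ 4 := by positivity
    linarith
  · push Not at hc
    have h3 : 1 ≤ |8 * n ^ 2 + 9 * e| := by
      apply Int.one_le_abs
      intro h0
      rw [h0] at h2
      have : n ^ 2 * k = 0 := by linarith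
      rcases mul_eq_zero.1 this with h3 | h3
      · exact hn0 (by simpa using h3)
      · exact hk0 h3
    have h4 : |e| ^ 3 ≤ 64 * n ^ 2 * |k| := by
      rw [habs]
      nlinarith [pow_pos (lt_of_lt_of_le one_pos he1) 3]
    have h5 : |e| ^ 2 ≤ 144 * |k| := by
      have h6 : 4 * (|e| * |e| ^ 2) ≤ 4 * (|e| * (144 * |k|)) := by
        have : 64 * (4 * n ^ 2) * |k| ≤ 64 * (9 * |e|) * |k| := by
          apply mul_le_mul_of_nonneg_right _ (by positivity)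
          linarith
        nlinarith [this, h4]
      have h7 : |e| * |e| ^ 2 ≤ |e| * (144 * |k|) := by linarith
      exact le_of_mul_le_mul_left h7 (by linarith)
    have h6 : 4 * x ≤ 13 * |e| := by linarith
    have h7 : (4 * x) ^ 2 ≤ (13 * |e|) ^ 2 := pow_le_pow_left₀ (by positivity) h6 2
    have h8 : x ^ 2 ≤ 1521 * |k| := by nlinarith
    have h9 : (x ^ 2) ^ 2 ≤ (1521 * |k|) ^ 2 := pow_le_pow_left₀ (by positivity) h8 2
    have h10 : x ^ 3 ≤ (x ^ 2) ^ 2 := by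
      have : x ^ 3 ≤ x ^ 4 := pow_le_pow_right₀ (by omega) (by norm_num)
      calc x ^ 3 ≤ x ^ 4 := this
        _ = (x ^ 2) ^ 2 := by ring
    have h11 : |k| ^ 2 ≤ |k| ^ 4 := pow_le_pow_right₀ hk1 (by norm_num)
    have h12 : (1521 * |k|) ^ 2 = 2313441 * |k| ^ 2 := by ring
    have h13 : 0 ≤ |k| ^ 2 := by positivity
    linarith

end Pool.Agent.Work.MP_f2148a_nt.M56
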