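import Mathlib

set_option autoImplicit false

/-!
MODULE S1/Ev (M, only Mathlib). The numerical conditions hold for large `K`.

PROOF. Real powers of `K ≥ K₀`, e.g. `K₀ = 10^200` (any sufficiently large number; `K^a ≥ c` for `K ≥ c^(1/a)`).
`1 ≤ K^(39/100) ≤ A`, even `A ≥ 2`. `A⁶ ≥ K^(234/100) = K²·K^(34/100) ≥ 64K²`.
`A⁸ ≤ K^(248/75)`, `K t² ≥ K·K^(26/10) = K^(36/10)`, `36/10 - 248/75 = 22/75 > 0`.
`A² (K^(1/5))² ≤ K^(62/75 + 2/5) = K^(92/75)`, `t ≥ K^(13/10)`, `13/10 - 92/75 = 11/150 > 0`: factor 6.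
`K (K^(1/5))⁶ = K^(11/5)`, `t³ ≥ K^(39/10)`. `A ≤ K^(31/75)`, `t ≥ K^(13/10)`: factor 1000. `t ≥ K^(13/10) ≥ 10⁴`.
`t⁶ ≥ K^(78/10) = K⁴ K^(38/10)`. Use `Real.rpow_add`, `Real.rpow_natCast`, `Real.rpow_mul`,
`Real.rpow_le_rpow`, `Real.rpow_le_rpow_of_exponent_le`; the existence of `K₀` may also be obtained from
`tendsto_rpow_atTop` and `Filter.eventually_atTop` (take finitely many `K^a ≥ c`, `a > 0`).
-/

namespace Pool.Agent.Work.MP_f2148a_nt.M56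

theorem num_ev : ∃ K₀ : ℝ, 1 ≤ K₀ ∧ ∀ K : ℝ, K₀ ≤ K → ∀ A t : ℝ, K ^ (39 / 100 : ℝ) ≤ A →
    A ≤ K ^ (31 / 75 : ℝ) → K ^ (13 / 10 : ℝ) ≤ t →
    2 ≤ A ∧ 1 ≤ K ^ (1 / 5 : ℝ) ∧ 10000 ≤ t ∧ 1000 * A ≤ t ∧ 64 * K ^ 2 ≤ A ^ 6 ∧
      1000 * A ^ 8 ≤ K * t ^ 2 ∧ 6 * A ^ 2 * (K ^ (1 / 5 : ℝ)) ^ 2 ≤ t ∧
      800 * K * (K ^ (1 / 5 : ℝ)) ^ 6 ≤ t ^ 3 ∧ 10 ^ 8 * K ^ 4 < t ^ 6 ∧ 100 ≤ K ^ (1 / 5 : ℝ) := by
  refine ⟨((10 : ℝ) ^ 9) ^ (150 / 11 : ℝ), Real.one_le_rpow (by norm_num) (by norm_num), ?_⟩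
  intro K hK A t hA hA' ht
  have hK1 : (1 : ℝ) ≤ K := le_trans (Real.one_le_rpow (by norm_num) (by norm_num)) hK
  have hK0 : (0 : ℝ) < K := by linarith
  have big : ∀ a : ℝ, 11 / 150 ≤ a → (10 : ℝ) ^ 9 ≤ K ^ a := by
    intro a ha
    have h1 : (10 : ℝ) ^ 9 = (((10 : ℝ) ^ 9) ^ (150 / 11 : ℝ)) ^ (11 / 150 : ℝ) := by
      rw [← Real.rpow_mul (by norm_num)]
      norm_num
    calc (10 : ℝ) ^ 9 = (((10 : ℝ) ^ 9) ^ (150 / 11 : ℝ)) ^ (11 / 150 : ℝ) := h1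
      _ ≤ K ^ (11 / 150 : ℝ) := Real.rpow_le_rpow (by positivity) hK (by norm_num)
      _ ≤ K ^ a := Real.rpow_le_rpow_of_exponent_le hK1 ha
  have pw : ∀ (a : ℝ) (n : ℕ), (K ^ a) ^ n = K ^ (a * n) := fun a n =>
    (Real.rpow_mul_natCast hK0.le a n).symm
  have mulK : ∀ a b : ℝ, K ^ a * K ^ b = K ^ (a + b) := fun a b => (Real.rpow_add hK0 a b).symm
  have pos : ∀ a : ℝ, 0 < K ^ a := fun a => Real.rpow_pos_of_pos hK0 a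
  have hA0 : 0 < A := lt_of_lt_of_le (pos _) hA
  have ht0 : 0 < t := lt_of_lt_of_le (pos _) ht
  have b1 := big (39 / 100) (by norm_num)
  have b2 := big (1 / 5) (by norm_num)
  have b3 := big (13 / 10) (by norm_num)
  refine ⟨by linarith, by linarith, by linarith, ?_, ?_, ?_, ?_, ?_, ?_, by linarith⟩
  · have h := big (133 / 150) (by norm_num)
    have e : K ^ (13 / 10 : ℝ) = K ^ (31 / 75 : ℝ) * K ^ (133 / 150 : ℝ) := by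
      rw [mulK]; norm_num
    have h2 : A * 10 ^ 9 ≤ K ^ (31 / 75 : ℝ) * K ^ (133 / 150 : ℝ) :=
      mul_le_mul hA' h (by norm_num) (pos _).le
    linarith
  · have h := big (34 / 100) (by norm_num)
    have h1 : (K ^ (39 / 100 : ℝ)) ^ 6 ≤ A ^ 6 := pow_le_pow_left₀ (pos _).le hA 6
    have e : (K ^ (39 / 100 : ℝ)) ^ 6 = K ^ 2 * K ^ (34 / 100 : ℝ) := by
      rw [pw, ← Real.rpow_natCast K 2, mulK]; norm_num
    have h2 : K ^ 2 * 10 ^ 9 ≤ K ^ 2 * K ^ (34 / 100 : ℝ) :=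
      mul_le_mul_of_nonneg_left h (by positivity)
    have h3 : 0 ≤ K ^ 2 := by positivity
    linarith
  · have h := big (22 / 75) (by norm_num)
    have h1 : A ^ 8 ≤ (K ^ (31 / 75 : ℝ)) ^ 8 := pow_le_pow_left₀ hA0.le hA' 8
    have h2 : (K ^ (13 / 10 : ℝ)) ^ 2 ≤ t ^ 2 := pow_le_pow_left₀ (pos _).le ht 2
    have e : K * (K ^ (13 / 10 : ℝ)) ^ 2 = (K ^ (31 / 75 : ℝ)) ^ 8 * K ^ (22 / 75 : ℝ) := by
      rw [pw, pw, mulK]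
      nth_rewrite 1 [← Real.rpow_one K]
      rw [mulK]; norm_num
    have h3 : K * (K ^ (13 / 10 : ℝ)) ^ 2 ≤ K * t ^ 2 := mul_le_mul_of_nonneg_left h2 hK0.le
    have h4 : A ^ 8 * 10 ^ 9 ≤ (K ^ (31 / 75 : ℝ)) ^ 8 * K ^ (22 / 75 : ℝ) :=
      mul_le_mul h1 h (by norm_num) (by positivity)
    have h5 : 0 ≤ A ^ 8 := by positivity
    linarith
  · have h := big (11 / 150) (by norm_num)
    have h1 : A ^ 2 ≤ (K ^ (31 / 75 : ℝ)) ^ 2 := pow_le_pow_left₀ hA0.le hA' 2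
    have e : K ^ (13 / 10 : ℝ) =
        (K ^ (31 / 75 : ℝ)) ^ 2 * (K ^ (1 / 5 : ℝ)) ^ 2 * K ^ (11 / 150 : ℝ) := by
      rw [pw, pw, mulK, mulK]; norm_num
    have h4 : A ^ 2 * (K ^ (1 / 5 : ℝ)) ^ 2 * 10 ^ 9 ≤
        (K ^ (31 / 75 : ℝ)) ^ 2 * (K ^ (1 / 5 : ℝ)) ^ 2 * K ^ (11 / 150 : ℝ) :=
      mul_le_mul (mul_le_mul_of_nonneg_right h1 (by positivity)) h (by norm_num) (by positivity)
    have h5 : 0 ≤ A ^ 2 * (K ^ (1 / 5 : ℝ)) ^ 2 := by positivity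
    linarith
  · have h := big (17 / 10) (by norm_num)
    have h2 : (K ^ (13 / 10 : ℝ)) ^ 3 ≤ t ^ 3 := pow_le_pow_left₀ (pos _).le ht 3
    have e : (K ^ (13 / 10 : ℝ)) ^ 3 = K * (K ^ (1 / 5 : ℝ)) ^ 6 * K ^ (17 / 10 : ℝ) := by
      rw [pw, pw, mul_assoc, mulK]
      nth_rewrite 2 [← Real.rpow_one K]
      rw [mulK]; norm_num
    have h4 : K * (K ^ (1 / 5 : ℝ)) ^ 6 * 10 ^ 9 ≤ K * (K ^ (1 / 5 : ℝ)) ^ 6 * K ^ (17 / 10 : ℝ) :=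
      mul_le_mul_of_nonneg_left h (by positivity)
    have h5 : 0 ≤ K * (K ^ (1 / 5 : ℝ)) ^ 6 := by positivity
    linarith
  · have h := big (19 / 5) (by norm_num)
    have h2 : (K ^ (13 / 10 : ℝ)) ^ 6 ≤ t ^ 6 := pow_le_pow_left₀ (pos _).le ht 6
    have e : (K ^ (13 / 10 : ℝ)) ^ 6 = K ^ 4 * K ^ (19 / 5 : ℝ) := by
      rw [pw, ← Real.rpow_natCast K 4, mulK]; norm_num
    have h4 : K ^ 4 * 10 ^ 9 ≤ K ^ 4 * K ^ (19 / 5 : ℝ) :=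
      mul_le_mul_of_nonneg_left h (by positivity)
    have h5 : 0 < K ^ 4 := by positivity
    linarith

end Pool.Agent.Work.MP_f2148a_nt.M56
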