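import Pool.Agent.Work.MP_f2148a_nt.M56.S1.Real

set_option autoImplicit false

/-!
MODULE S1/Mono (M). The function `G(r) = d₁Q1(1,r) + d₂Q2(1,r)` is strictly increasing near its zero.

PROOF. `Q1(1,r) = 1 - 6lr² - 2cr³ - 3l²r⁴`, `Q2(1,r) = 2r - cr⁴`. Put `δ = 1/50`.
`|Q1(1,r) - 1| ≤ 6δ² + 2δ³ + 3δ⁴ ≤ 0.0025`, `|Q2(1,r)| ≤ 2δ + δ⁴ ≤ 0.0401`.  From `|G(r)| ≤ 1/10` and `1 ≤ d₂`:
`|d₁| ≤ (1/10 + 0.0401 d₂)/0.9975 ≤ 0.15 d₂`.
`G(r') - G(r) = d₁ (Q1(1,r') - Q1(1,r)) + d₂ (Q2(1,r') - Q2(1,r))`, and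
`Q1(1,r') - Q1(1,r) = (r' - r)·(-6l(r'+r) - 2c(r'²+r'r+r²) - 3l²(r'³+r'²r+r'r²+r³))`, factor of absolute value
`≤ 12δ + 6δ² + 12δ³ ≤ 0.25`;  `Q2(1,r') - Q2(1,r) = (r' - r)·(2 - c(r'³+r'²r+r'r²+r³))`, factor `≥ 2 - 4δ³ ≥ 1.99`.
So `|G(r') - G(r)| ≥ |r' - r| (1.99 d₂ - 0.25·0.15 d₂) ≥ (3/2) d₂ |r' - r|`.
-/

namespace Pool.Agent.Work.MP_f2148a_nt.M56

theorem mono_G {l c d₁ d₂ r r' : ℝ} (hl : |l| ≤ 1) (hc : |c| ≤ 1) (hr : |r| ≤ 1 / 50)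
    (hr' : |r'| ≤ 1 / 50) (hd : 1 ≤ d₂) (hG : |d₁ * Q1 l c 1 r + d₂ * Q2 c 1 r| ≤ 1 / 10) :
    3 / 2 * d₂ * |r' - r| ≤
      |(d₁ * Q1 l c 1 r' + d₂ * Q2 c 1 r') - (d₁ * Q1 l c 1 r + d₂ * Q2 c 1 r)| := by
  have key : ∀ {x y s t : ℝ}, |x| ≤ s → |y| ≤ t → |x * y| ≤ s * t := by
    intro x y s t hx hy
    rw [abs_mul]
    exact mul_le_mul hx hy (abs_nonneg _) (le_trans (abs_nonneg _) hx)
  have hll : |l * l| ≤ 1 * 1 := key hl hl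
  have hrr : |r * r| ≤ 1 / 50 * (1 / 50) := key hr hr
  have hrr' : |r' * r| ≤ 1 / 50 * (1 / 50) := key hr' hr
  have hrr'' : |r' * r'| ≤ 1 / 50 * (1 / 50) := key hr' hr'
  -- bounds for Q1 - 1 and Q2 at r
  have s1 := abs_le.mp (key hl hrr)
  have s2 := abs_le.mp (key (key hc hrr) hr)
  have s3 := abs_le.mp (key hll (key hrr hrr))
  have s4 := abs_le.mp (key hc (key hrr hrr))
  have s5 := abs_le.mp hr
  have q1 : 9975 / 10000 ≤ Q1 l c 1 r := by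
    have : Q1 l c 1 r = 1 - 6 * (l * (r * r)) - 2 * (c * (r * r) * r)
        - 3 * (l * l * (r * r * (r * r))) := by unfold Q1; ring
    rw [this]
    linarith [s1.2, s2.2, s3.2]
  have q2 : |Q2 c 1 r| ≤ 401 / 10000 := by
    have : Q2 c 1 r = 2 * r - c * (r * r * (r * r)) := by unfold Q2; ring
    rw [this, abs_le]
    constructor <;> linarith [s4.1, s4.2, s5.1, s5.2]
  have hd0 : 0 < d₂ := by linarith
  have e1 : |d₁| * (9975 / 10000) ≤ 1 / 10 + 401 / 10000 * d₂ := by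
    calc |d₁| * (9975 / 10000) ≤ |d₁| * Q1 l c 1 r := mul_le_mul_of_nonneg_left q1 (abs_nonneg _)
      _ = |d₁ * Q1 l c 1 r| := by
        rw [abs_mul, abs_of_nonneg (by linarith : (0 : ℝ) ≤ Q1 l c 1 r)]
      _ = |(d₁ * Q1 l c 1 r + d₂ * Q2 c 1 r) - d₂ * Q2 c 1 r| := by rw [add_sub_cancel_right]
      _ ≤ |d₁ * Q1 l c 1 r + d₂ * Q2 c 1 r| + |d₂ * Q2 c 1 r| := abs_sub _ _
      _ = |d₁ * Q1 l c 1 r + d₂ * Q2 c 1 r| + d₂ * |Q2 c 1 r| := by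
        rw [abs_mul d₂, abs_of_pos hd0]
      _ ≤ 1 / 10 + 401 / 10000 * d₂ := by
        have := mul_le_mul_of_nonneg_left q2 hd0.le
        linarith
  have e2 : |d₁| ≤ 15 / 100 * d₂ := by linarith
  -- the two factors
  set f1 : ℝ := -6 * (l * r') - 6 * (l * r) - 2 * (c * (r' * r') + c * (r' * r) + c * (r * r))
    - 3 * (l * l * (r' * r' * r') + l * l * (r' * r' * r) + l * l * (r' * r * r)
      + l * l * (r * r * r)) with hf1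
  set f2 : ℝ := 2 - (c * (r' * r' * r') + c * (r' * r' * r) + c * (r' * r * r)
      + c * (r * r * r)) with hf2
  have g1 : |f1| ≤ 251 / 1000 := by
    have a1 := abs_le.mp (key hl hr')
    have a2 := abs_le.mp (key hl hr)
    have a3 := abs_le.mp (key hc hrr'')
    have a4 := abs_le.mp (key hc hrr')
    have a5 := abs_le.mp (key hc hrr)
    have a6 := abs_le.mp (key hll (key hrr'' hr'))
    have a7 := abs_le.mp (key hll (key hrr'' hr))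
    have a8 := abs_le.mp (key hll (key hrr' hr))
    have a9 := abs_le.mp (key hll (key hrr hr))
    rw [hf1, abs_le]
    constructor <;> linarith [a1.1, a1.2, a2.1, a2.2, a3.1, a3.2, a4.1, a4.2, a5.1, a5.2, a6.1,
      a6.2, a7.1, a7.2, a8.1, a8.2, a9.1, a9.2]
  have g2 : 199 / 100 ≤ f2 := by
    have a6 := abs_le.mp (key hc (key hrr'' hr'))
    have a7 := abs_le.mp (key hc (key hrr'' hr))
    have a8 := abs_le.mp (key hc (key hrr' hr))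
    have a9 := abs_le.mp (key hc (key hrr hr))
    rw [hf2]
    linarith [a6.2, a7.2, a8.2, a9.2]
  have hid : (d₁ * Q1 l c 1 r' + d₂ * Q2 c 1 r') - (d₁ * Q1 l c 1 r + d₂ * Q2 c 1 r)
      = (r' - r) * (d₁ * f1 + d₂ * f2) := by
    rw [hf1, hf2]
    unfold Q1 Q2
    ring
  rw [hid, abs_mul, mul_comm]
  refine mul_le_mul_of_nonneg_left ?_ (abs_nonneg _)
  have g3 : |d₁ * f1| ≤ 15 / 100 * d₂ * (251 / 1000) := key e2 g1
  have g4 : d₂ * (199 / 100) ≤ d₂ * f2 := mul_le_mul_of_nonneg_left g2 hd0.le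
  have g5 := abs_le.mp g3
  refine le_trans ?_ (le_abs_self _)
  linarith [g5.1]

end Pool.Agent.Work.MP_f2148a_nt.M56
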