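import Pool.Agent.Work.MP_f2148a_nt.M56.S1.Real
import Pool.Agent.Work.MP_f2148a_nt.M56.S1.Mono

set_option autoImplicit false

/-!
MODULE S1/Inj (M-L). Two points of one box with proportional `(s,t)` are equal up to sign.

PROOF. Write `f = q4 x y α β s t`, `f' = q4 x y α β s' t'` (`Fin 5 → ℤ`); by `h1`, `h1'` `f = 3g`, `f' = 3g'`, and
`q4v g X Y = 1`, `q4v g' X' Y' = 1` (`q4v_q4`, `h2`, `h2'`). `q4` is linear in `(s,t)`.
(1) `(s,t) = (s',t')`. `(s,t) ≠ (0,0)` and `(s',t') ≠ (0,0)` by `h2`, `h2'`. From `hp : s t' = s' t`: for all `i`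
    `s' · f i = s · f' i` and `t' · f i = t · f' i` (coefficients of `q4` are linear in `(s,t)`; `ring` and `hp`).
    Hence `s' = s · q4v g' X Y`·... precisely: `s' · 1 = s' · q4v g X Y = s · q4v g' X Y` and
    `s · 1 = s · q4v g' X' Y' = s' · q4v g X' Y'`, so `s ∣ s'` and `s' ∣ s`; likewise `t ∣ t'`, `t' ∣ t`
    (`Int.natAbs` equal, `s' = ±s`, `t' = ±t`), and with `hp` `(s',t') = ±(s,t)`. The quantity
    `d₂(s,t) = -(2ωs)/(3ατ) + tα/(3τ)` is linear and `≥ 1` at both, so the sign is `+`.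
(2) `ξ = (X+ωY)/τ ≠ 0`, `r = τY/ξ`, `|r| ≤ 1/50`; the same for `ξ'`, `r'`. `real_q4` (with `q4v = 3`) and homogeneity
    (`Q1 l c ξ υ = ξ⁴ Q1 l c 1 r`, `Q2 c ξ υ = ξ⁴ Q2 c 1 r`) give `9Δ ξ⁴ G(r) = 3`, i.e. `G(r) = 1/(3Δξ⁴)`, and
    `G(r') = 1/(3Δξ'⁴)` with the same `d₁, d₂` (by (1)). As `Δ ≥ 1/4`, `|ξ|,|ξ'| ≥ Q ≥ 2`:
    `0 < G(r), G(r') ≤ 4/(3Q⁴) ≤ 1/10`.
(3) `mono_G`: `(3/2)|r' - r| ≤ |G(r') - G(r)| ≤ 4/(3Q⁴)`, so `|r' - r| ≤ 8/(9 Q⁴) < 1/Q⁴`.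
(4) `r - r' = (τYξ' - τY'ξ)/(ξξ') = (YX' - Y'X)/(ξξ')`. If `YX' - Y'X ≠ 0` then `|r - r'| ≥ 1/|ξξ'| ≥ 1/R² ≥ 1/Q⁴`
    (as `R ≤ Q²`), a contradiction. So `YX' = Y'X`.
(5) `gcd(X,Y) = 1`: a common divisor `d` of `X, Y` satisfies `d⁴ ∣ q4v g X Y = 1`. The same for `X',Y'`. So
    `(X',Y') = ±(X,Y)` (`X ∣ X'`, `X' ∣ X`, `Y ∣ Y'`, `Y' ∣ Y`, both signs equal because `YX' = Y'X`; if `X = 0` then `Y = ±1`
    and `X' = 0`, `Y' = ±1`; if `Y = 0` similarly).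
-/

namespace Pool.Agent.Work.MP_f2148a_nt.M56

private theorem inj_unit {k k' : ℤ} (h : k * k' = 1) : k = 1 ∨ k = -1 := by
  have : IsUnit k := IsUnit.of_mul_eq_one k' h
  exact Int.isUnit_iff.mp this

private theorem inj_cop {X Y X' Y' : ℤ} (h : IsCoprime X Y) (h' : IsCoprime X' Y')
    (e : Y * X' = Y' * X) : (X' = X ∧ Y' = Y) ∨ (X' = -X ∧ Y' = -Y) := by
  obtain ⟨a, b, hab⟩ := h
  obtain ⟨a', b', hab'⟩ := h'
  have e1 : X' = (a * X' + b * Y') * X := by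
    linear_combination (-X') * hab + b * e
  have e2 : Y' = (a * X' + b * Y') * Y := by
    linear_combination (-Y') * hab - a * e
  have e3 : (a * X' + b * Y') * (a' * X + b' * Y) = 1 := by
    linear_combination hab' - a' * e1 - b' * e2
  rcases inj_unit e3 with hk | hk
  · left
    rw [hk] at e1 e2
    constructor
    · linarith
    · linarith
  · right
    rw [hk] at e1 e2
    constructor
    · linarith
    · linarith

private theorem inj_q4v_mul (f : Fin 5 → ℤ) (g : Fin 5 → ℤ) (m n : ℤ)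
    (h : ∀ i, m * f i = n * g i) (X Y : ℤ) : m * q4v f X Y = n * q4v g X Y := by
  unfold q4v
  linear_combination X ^ 4 * h 0 + X ^ 3 * Y * h 1 + X ^ 2 * Y ^ 2 * h 2 + X * Y ^ 3 * h 3
    + Y ^ 4 * h 4

private theorem inj_q4v_cop (g : Fin 5 → ℤ) (X Y : ℤ) (h : q4v g X Y = 1) : IsCoprime X Y := by
  refine ⟨g 0 * X ^ 3 + g 1 * X ^ 2 * Y + g 2 * X * Y ^ 2 + g 3 * Y ^ 3, g 4 * Y ^ 3, ?_⟩
  unfold q4v at h
  linear_combination h

private theorem inj_real {x y α β : ℤ} {ω τ Δ l c Q : ℝ} (hα : 1 ≤ α) (hτ : 0 < τ)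
    (hdep : Dep (Z0 x y α β) ω τ Δ l c) (hΔ : 1 / 4 ≤ Δ) (hQ : 2 ≤ Q) {s t X Y : ℤ}
    (h2 : 3 * s * F0 x y X Y + t * G1 x y α β X Y = 3)
    (h4 : Q ≤ |((X : ℝ) + ω * Y) / τ|) :
    0 < (s * τ / (3 * α) : ℝ) * Q1 l c 1 (τ * Y / (((X : ℝ) + ω * Y) / τ))
        + (-(2 * ω * s) / (3 * α * τ) + t * α / (3 * τ))
          * Q2 c 1 (τ * Y / (((X : ℝ) + ω * Y) / τ)) ∧
    (s * τ / (3 * α) : ℝ) * Q1 l c 1 (τ * Y / (((X : ℝ) + ω * Y) / τ))
        + (-(2 * ω * s) / (3 * α * τ) + t * α / (3 * τ))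
          * Q2 c 1 (τ * Y / (((X : ℝ) + ω * Y) / τ)) ≤ 4 / (3 * Q ^ 4) := by
  have e := real_q4 hα hτ hdep s t X Y
  rw [q4v_q4, h2] at e
  generalize (s * τ / (3 * α) : ℝ) = d₁ at *
  generalize (-(2 * ω * s) / (3 * α * τ) + t * α / (3 * τ) : ℝ) = d₂ at *
  generalize hξ : ((X : ℝ) + ω * Y) / τ = ξ at *
  generalize τ * (Y : ℝ) = υ at *
  have hQ0 : 0 < Q := by linarith
  have hξ0 : 0 < |ξ| := lt_of_lt_of_le hQ0 h4
  have hξne : ξ ≠ 0 := abs_pos.mp hξ0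
  have hr : υ = ξ * (υ / ξ) := by field_simp
  generalize υ / ξ = r at *
  have hξ4 : Q ^ 4 ≤ ξ ^ 4 := by
    have h1 : Q ^ 4 ≤ |ξ| ^ 4 := by gcongr
    have h2 : |ξ| ^ 4 = ξ ^ 4 := by
      rw [← abs_pow]
      exact abs_of_nonneg (by positivity)
    linarith
  have e2 : 3 = 9 * Δ * ξ ^ 4 * (d₁ * Q1 l c 1 r + d₂ * Q2 c 1 r) := by
    push_cast at e
    rw [e, hr]
    unfold Q1 Q2
    ring
  generalize d₁ * Q1 l c 1 r + d₂ * Q2 c 1 r = G at *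
  have hQ4 : 0 < Q ^ 4 := by positivity
  have hξ40 : 0 < ξ ^ 4 := by linarith
  have hG0 : 0 < G := by
    by_contra hn
    push Not at hn
    have : 9 * Δ * ξ ^ 4 * G ≤ 0 := mul_nonpos_of_nonneg_of_nonpos (by positivity) hn
    linarith
  refine ⟨hG0, ?_⟩
  rw [le_div_iff₀ (by positivity)]
  have h6 : 9 * (1 / 4) * Q ^ 4 * G ≤ 9 * Δ * ξ ^ 4 * G := by gcongr
  nlinarith

theorem inj_pt {x y α β : ℤ} {ω τ Δ l c ρ Q R : ℝ} (hα : 1 ≤ α) (hτ : 0 < τ)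
    (hdep : Dep (Z0 x y α β) ω τ Δ l c) (hl : |l| ≤ 1) (hc : |c| ≤ 1) (hΔ : 1 / 4 ≤ Δ)
    (hρ1 : ρ ≤ 1 / 50) (hQ : 2 ≤ Q) (hR : R ≤ Q ^ 2)
    {s t X Y s' t' X' Y' : ℤ}
    (h1 : ∀ i, (3 : ℤ) ∣ q4 x y α β s t i) (h1' : ∀ i, (3 : ℤ) ∣ q4 x y α β s' t' i)
    (h2 : 3 * s * F0 x y X Y + t * G1 x y α β X Y = 3)
    (h2' : 3 * s' * F0 x y X' Y' + t' * G1 x y α β X' Y' = 3)
    (h3 : |τ * (Y : ℝ)| ≤ ρ * |((X : ℝ) + ω * Y) / τ|)
    (h3' : |τ * (Y' : ℝ)| ≤ ρ * |((X' : ℝ) + ω * Y') / τ|)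
    (h4 : Q ≤ |((X : ℝ) + ω * Y) / τ|) (h4' : Q ≤ |((X' : ℝ) + ω * Y') / τ|)
    (h5 : |((X : ℝ) + ω * Y) / τ| ≤ R) (h5' : |((X' : ℝ) + ω * Y') / τ| ≤ R)
    (h6 : 1 ≤ -(2 * ω * s) / (3 * α * τ) + t * α / (3 * τ))
    (h6' : 1 ≤ -(2 * ω * s') / (3 * α * τ) + t' * α / (3 * τ))
    (hp : s * t' = s' * t) :
    s = s' ∧ t = t' ∧ ((X' = X ∧ Y' = Y) ∨ (X' = -X ∧ Y' = -Y)) := by
  -- integral quartics
  choose g hg using h1
  choose g' hg' using h1'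
  have hv : q4v g X Y = 1 := by
    have e1 : q4v (q4 x y α β s t) X Y = 3 := by rw [q4v_q4]; exact h2
    have e2 : 1 * q4v (q4 x y α β s t) X Y = 3 * q4v g X Y :=
      inj_q4v_mul _ _ 1 3 (fun i => by rw [one_mul]; exact hg i) X Y
    omega
  have hv' : q4v g' X' Y' = 1 := by
    have e1 : q4v (q4 x y α β s' t') X' Y' = 3 := by rw [q4v_q4]; exact h2'
    have e2 : 1 * q4v (q4 x y α β s' t') X' Y' = 3 * q4v g' X' Y' :=
      inj_q4v_mul _ _ 1 3 (fun i => by rw [one_mul]; exact hg' i) X' Y'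
    omega
  have hs : ∀ i, s' * q4 x y α β s t i = s * q4 x y α β s' t' i := by
    intro i
    fin_cases i
    · simp only [q4]
      ring
    · simp only [q4]
      linear_combination (-(6 * α ^ 2)) * hp
    · simp only [q4]
      linear_combination (-(6 * α * β)) * hp
    · simp only [q4]
      linear_combination (-(2 * β ^ 2)) * hp
    · simp only [q4]
      linear_combination (-(6 * α * β * x + 12 * α ^ 2 * y)) * hp
  have ht : ∀ i, t' * q4 x y α β s t i = t * q4 x y α β s' t' i := by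
    intro i
    fin_cases i
    · simp only [q4]
      linear_combination 3 * hp
    · simp only [q4]
      ring
    · simp only [q4]
      linear_combination (-(18 * x)) * hp
    · simp only [q4]
      linear_combination (24 * y) * hp
    · simp only [q4]
      linear_combination (-(9 * x ^ 2)) * hp
  have hs3 : ∀ i, s' * g i = s * g' i := by
    intro i
    have := hs i
    rw [hg i, hg' i] at this
    linarith
  have ht3 : ∀ i, t' * g i = t * g' i := by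
    intro i
    have := ht i
    rw [hg i, hg' i] at this
    linarith
  have k1 : s' = s * q4v g' X Y := by
    have := inj_q4v_mul g g' s' s hs3 X Y
    rw [hv] at this
    linarith
  have k2 : t' = t * q4v g' X Y := by
    have := inj_q4v_mul g g' t' t ht3 X Y
    rw [hv] at this
    linarith
  have k3 : s' * q4v g X' Y' = s := by
    have := inj_q4v_mul g g' s' s hs3 X' Y'
    rw [hv'] at this
    linarith
  have k4 : t' * q4v g X' Y' = t := by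
    have := inj_q4v_mul g g' t' t ht3 X' Y'
    rw [hv'] at this
    linarith
  have hst : s ≠ 0 ∨ t ≠ 0 := by
    by_contra hn
    push Not at hn
    rw [hn.1, hn.2] at h2
    simp at h2
  have hkk : q4v g' X Y * q4v g X' Y' = 1 := by
    rcases hst with h | h
    · apply mul_left_cancel₀ h
      calc s * (q4v g' X Y * q4v g X' Y') = (s * q4v g' X Y) * q4v g X' Y' := by ring
        _ = s' * q4v g X' Y' := by rw [← k1]
        _ = s := k3
        _ = s * 1 := by ring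
    · apply mul_left_cancel₀ h
      calc t * (q4v g' X Y * q4v g X' Y') = (t * q4v g' X Y) * q4v g X' Y' := by ring
        _ = t' * q4v g X' Y' := by rw [← k2]
        _ = t := k4
        _ = t * 1 := by ring
  have hsgn : s = s' ∧ t = t' := by
    rcases inj_unit hkk with hk | hk
    · rw [hk, mul_one] at k1 k2
      exact ⟨k1.symm, k2.symm⟩
    · exfalso
      rw [hk] at k1 k2
      have e1 : (s' : ℝ) = -(s : ℝ) := by
        rw [k1]
        push_cast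
        ring
      have e2 : (t' : ℝ) = -(t : ℝ) := by
        rw [k2]
        push_cast
        ring
      rw [e1, e2] at h6'
      have e3 : -(2 * ω * -(s : ℝ)) / (3 * α * τ) + -(t : ℝ) * α / (3 * τ)
          = -(-(2 * ω * s) / (3 * α * τ) + t * α / (3 * τ)) := by ring
      rw [e3] at h6'
      linarith
  obtain ⟨rfl, rfl⟩ := hsgn
  refine ⟨rfl, rfl, ?_⟩
  -- the real part
  obtain ⟨hG0, hG1⟩ := inj_real hα hτ hdep hΔ hQ h2 h4
  obtain ⟨hG0', hG1'⟩ := inj_real hα hτ hdep hΔ hQ h2' h4'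
  have hQ0 : 0 < Q := by linarith
  have hQ4 : (16 : ℝ) ≤ Q ^ 4 := by
    have : (2 : ℝ) ^ 4 ≤ Q ^ 4 := by gcongr
    norm_num at this
    linarith
  have hξ0 : 0 < |((X : ℝ) + ω * Y) / τ| := lt_of_lt_of_le hQ0 h4
  have hξ0' : 0 < |((X' : ℝ) + ω * Y') / τ| := lt_of_lt_of_le hQ0 h4'
  have hr : |τ * Y / (((X : ℝ) + ω * Y) / τ)| ≤ 1 / 50 := by
    rw [abs_div, div_le_iff₀ hξ0]
    refine h3.trans ?_
    gcongr
  have hr' : |τ * Y' / (((X' : ℝ) + ω * Y') / τ)| ≤ 1 / 50 := by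
    rw [abs_div, div_le_iff₀ hξ0']
    refine h3'.trans ?_
    gcongr
  have hG2 : |(s * τ / (3 * α) : ℝ) * Q1 l c 1 (τ * Y / (((X : ℝ) + ω * Y) / τ))
        + (-(2 * ω * s) / (3 * α * τ) + t * α / (3 * τ))
          * Q2 c 1 (τ * Y / (((X : ℝ) + ω * Y) / τ))| ≤ 1 / 10 := by
    rw [abs_of_pos hG0]
    refine hG1.trans ?_
    rw [div_le_iff₀ (by positivity)]
    linarith
  have hm := mono_G hl hc hr hr' h6 hG2
  have hdiff : |((s * τ / (3 * α) : ℝ) * Q1 l c 1 (τ * Y' / (((X' : ℝ) + ω * Y') / τ))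
        + (-(2 * ω * s) / (3 * α * τ) + t * α / (3 * τ))
          * Q2 c 1 (τ * Y' / (((X' : ℝ) + ω * Y') / τ)))
      - ((s * τ / (3 * α) : ℝ) * Q1 l c 1 (τ * Y / (((X : ℝ) + ω * Y) / τ))
        + (-(2 * ω * s) / (3 * α * τ) + t * α / (3 * τ))
          * Q2 c 1 (τ * Y / (((X : ℝ) + ω * Y) / τ)))| ≤ 4 / (3 * Q ^ 4) := by
    rw [abs_le]
    constructor
    · linarith
    · linarith
  have hrr : 3 / 2 * |τ * Y' / (((X' : ℝ) + ω * Y') / τ) - τ * Y / (((X : ℝ) + ω * Y) / τ)|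
      ≤ 4 / (3 * Q ^ 4) := by
    refine le_trans ?_ (hm.trans hdiff)
    have h0 := abs_nonneg (τ * Y' / (((X' : ℝ) + ω * Y') / τ) - τ * Y / (((X : ℝ) + ω * Y) / τ))
    nlinarith
  have hXY : Y * X' = Y' * X := by
    by_contra hne
    have hne' : Y' * X - Y * X' ≠ 0 := fun h => hne (by linarith)
    have h7 : (1 : ℝ) ≤ |((Y' * X - Y * X' : ℤ) : ℝ)| := by
      have : (1 : ℤ) ≤ |Y' * X - Y * X'| := Int.one_le_abs hne'
      exact_mod_cast this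
    have hξne : ((X : ℝ) + ω * Y) / τ ≠ 0 := abs_pos.mp hξ0
    have hξne' : ((X' : ℝ) + ω * Y') / τ ≠ 0 := abs_pos.mp hξ0'
    have e : τ * Y' / (((X' : ℝ) + ω * Y') / τ) - τ * Y / (((X : ℝ) + ω * Y) / τ)
        = ((Y' * X - Y * X' : ℤ) : ℝ)
          / ((((X' : ℝ) + ω * Y') / τ) * (((X : ℝ) + ω * Y) / τ)) := by
      rw [div_sub_div _ _ hξne' hξne]
      congr 1
      push_cast
      field_simp
      ring
    rw [e, abs_div, abs_mul] at hrr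
    have h8 : |((X' : ℝ) + ω * Y') / τ| * |((X : ℝ) + ω * Y) / τ| ≤ Q ^ 4 := by
      have hb : |((X : ℝ) + ω * Y) / τ| ≤ Q ^ 2 := h5.trans hR
      have hb' : |((X' : ℝ) + ω * Y') / τ| ≤ Q ^ 2 := h5'.trans hR
      calc |((X' : ℝ) + ω * Y') / τ| * |((X : ℝ) + ω * Y) / τ| ≤ Q ^ 2 * Q ^ 2 := by gcongr
        _ = Q ^ 4 := by ring
    have h9 : 1 / Q ^ 4 ≤ |((Y' * X - Y * X' : ℤ) : ℝ)|
        / (|((X' : ℝ) + ω * Y') / τ| * |((X : ℝ) + ω * Y) / τ|) := by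
      gcongr
    have h10 : 3 / 2 * (1 / Q ^ 4) ≤ 4 / (3 * Q ^ 4) := by linarith
    have h11 : 4 / (3 * Q ^ 4) = 4 / 3 * (1 / Q ^ 4) := by
      field_simp
    rw [h11] at h10
    have h12 : 0 < 1 / Q ^ 4 := by positivity
    linarith
  exact inj_cop (inj_q4v_cop g X Y hv) (inj_q4v_cop g' X' Y' hv') hXY

end Pool.Agent.Work.MP_f2148a_nt.M56
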