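import Mathlib

set_option autoImplicit false

/-!
MODULE S1/Prim (S-M, only Mathlib). A primitive giant is determined by the ratio `x³ : k`.

PROOF. `h` gives `x³ y'² = x'³ y²`. Let `μ = (y' x)/(y x') > 0` in `ℚ`. Then `μ² = y'²x²/(y²x'²) = x'/x` (by
`x³y'² = x'³y²`) and `μ³ = μ·x'/x = y'/y`. Write `μ = m/n` in lowest terms (`m, n ≥ 1`, `IsCoprime m n`):
`n²x' = m²x`, `n³y' = m³y`. By coprimality `n² ∣ x`, `n³ ∣ y` (`IsCoprime.pow`, `dvd_of_dvd_mul_left`), so `n` is a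
unit by `hp`, `n = 1`; likewise `m² ∣ x'`, `m³ ∣ y'`, `m = 1`. Hence `x' = x`, `y' = y`.
-/

namespace Pool.Agent.Work.MP_f2148a_nt.M56

theorem prim_eq {x y x' y' : ℤ} (hx : 0 < x) (hx' : 0 < x') (hy : 0 < y) (hy' : 0 < y')
    (hp : ∀ d : ℤ, d ^ 2 ∣ x → d ^ 3 ∣ y → IsUnit d)
    (hp' : ∀ d : ℤ, d ^ 2 ∣ x' → d ^ 3 ∣ y' → IsUnit d)
    (h : x ^ 3 * (y' ^ 2 - x' ^ 3) = x' ^ 3 * (y ^ 2 - x ^ 3)) : x = x' ∧ y = y' := by
  have h1 : x ^ 3 * y' ^ 2 = x' ^ 3 * y ^ 2 := by linarith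
  have hg : 0 < Int.gcd (y' * x) (y * x') :=
    Int.gcd_pos_of_ne_zero_left _ (mul_pos hy' hx).ne'
  obtain ⟨m, n, hmn, hm, hn⟩ := Int.exists_gcd_one hg
  have hg' : (0 : ℤ) < (Int.gcd (y' * x) (y * x') : ℤ) := by exact_mod_cast hg
  generalize (Int.gcd (y' * x) (y * x') : ℤ) = g at hm hn hg'
  have hm0 : 0 < m := by
    by_contra hc
    have : m * g ≤ 0 := mul_nonpos_of_nonpos_of_nonneg (not_lt.1 hc) hg'.le
    have := mul_pos hy' hx
    linarith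
  have hn0 : 0 < n := by
    by_contra hc
    have : n * g ≤ 0 := mul_nonpos_of_nonpos_of_nonneg (not_lt.1 hc) hg'.le
    have := mul_pos hy hx'
    linarith
  have h2 : y' * x * n = y * x' * m := by rw [hm, hn]; ring
  have h3 : m ^ 2 * x = n ^ 2 * x' := by
    have h4 : y ^ 2 * x' ^ 2 * (m ^ 2 * x) = y ^ 2 * x' ^ 2 * (n ^ 2 * x') := by
      calc y ^ 2 * x' ^ 2 * (m ^ 2 * x) = (y * x' * m) ^ 2 * x := by ring
        _ = (y' * x * n) ^ 2 * x := by rw [h2]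
        _ = (x ^ 3 * y' ^ 2) * n ^ 2 := by ring
        _ = (x' ^ 3 * y ^ 2) * n ^ 2 := by rw [h1]
        _ = _ := by ring
    exact mul_left_cancel₀ (by positivity) h4
  have h5 : m ^ 3 * y = n ^ 3 * y' := by
    have h6 : x * (m ^ 3 * y) = x * (n ^ 3 * y') := by
      calc x * (m ^ 3 * y) = y * m * (m ^ 2 * x) := by ring
        _ = y * m * (n ^ 2 * x') := by rw [h3]
        _ = n ^ 2 * (y * x' * m) := by ring
        _ = n ^ 2 * (y' * x * n) := by rw [h2]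
        _ = _ := by ring
    exact mul_left_cancel₀ hx.ne' h6
  have hco : IsCoprime m n := Int.isCoprime_iff_gcd_eq_one.2 hmn
  have hn1 : n = 1 := by
    have e1 : n ^ 2 ∣ x := (hco.symm.pow (m := 2) (n := 2)).dvd_of_dvd_mul_left ⟨x', h3⟩
    have e2 : n ^ 3 ∣ y := (hco.symm.pow (m := 3) (n := 3)).dvd_of_dvd_mul_left ⟨y', h5⟩
    rcases Int.isUnit_iff.1 (hp n e1 e2) with h | h
    · exact h
    · omega
  have hm1 : m = 1 := by
    have e1 : m ^ 2 ∣ x' := (hco.pow (m := 2) (n := 2)).dvd_of_dvd_mul_left ⟨x, h3.symm⟩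
    have e2 : m ^ 3 ∣ y' := (hco.pow (m := 3) (n := 3)).dvd_of_dvd_mul_left ⟨y, h5.symm⟩
    rcases Int.isUnit_iff.1 (hp' m e1 e2) with h | h
    · exact h
    · omega
  rw [hm1, hn1] at h3 h5
  constructor
  · linarith
  · linarith

end Pool.Agent.Work.MP_f2148a_nt.M56
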