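import Pool.Agent.Work.MP_f2148a_nt.M56.S1.Sz

set_option autoImplicit false

/-!
MODULE S1/RC (M). Regime `τ⁶ ≤ 100|c'|`: then `τ⁶t³ ≤ 401 K`, `(ατ³A)² ≤ 401 K`, `τ B ≤ 1`.

PROOF. `C = 2w³-6tw²-4η`. `τ⁶ ≤ 100|C| ≤ 600.1 tw² + 400|η|` (sizes), times `α²t³`:
`(α²τ⁶)t³ ≤ 600.1 t·(α²w²t³) + 400 α²|η|t³ ≤ 600.1 t A²/9 + 400 α²K ≤ 66.7 t A² + 400α²K`.
`66.7 tA² ≤ 66.7·10⁻⁶ t³ ≤ 0.0001 t³` (`1000A ≤ t`). `α²τ⁶ ≥ 0.0841`, so `400α²K ≥ 0.084 t³`, hence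
`66.7 tA² ≤ 0.0001 t³ ≤ (0.0001/0.084)·400α²K ≤ α²K`, and `(α²τ⁶)t³ ≤ 401 α²K`, i.e. `τ⁶t³ ≤ 401K`.
`(ατ³A)² = α²A²·τ⁶ ≤ t³τ⁶ ≤ 401K`. `τ⁶B⁶·800K ≤ τ⁶t³ ≤ 401K` (`KB`), so `(τB)⁶ ≤ 1`, `τB ≤ 1`.
-/

namespace Pool.Agent.Work.MP_f2148a_nt.M56

theorem reg_C {K A B t α w η τ : ℝ} (h : Num K A B t α w η) (hτ : 0 < τ)
    (hΔ : 29 / 100 ≤ α * τ ^ 3)
    (hC : τ ^ 6 ≤ 100 * |2 * w ^ 3 - 6 * t * w ^ 2 - 4 * η|) :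
    τ ^ 6 * t ^ 3 ≤ 401 * K ∧ (α * τ ^ 3 * A) ^ 2 ≤ 401 * K ∧ τ * B ≤ 1 := by
  obtain ⟨-, -, -, hs⟩ := sizes h
  have hK : 1 ≤ K := h.K_ge
  have hA : 2 ≤ A := h.A_ge
  have hB : 1 ≤ B := h.B_ge
  have ht : 10000 ≤ t := h.t_ge
  have hAt : 1000 * A ≤ t := h.A_le
  have ha : 1 ≤ α := h.a_ge
  have haA : α ^ 2 * A ^ 2 ≤ t ^ 3 := h.a_le
  have hw : 9 * α ^ 2 * w ^ 2 * t ^ 3 ≤ A ^ 2 := h.w_le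
  have he : |η| * t ^ 3 ≤ K := h.eta_le
  have hKB : 800 * K * B ^ 6 ≤ t ^ 3 := h.KB
  have ht0 : 0 < t := by linarith
  have ht3 : 0 < t ^ 3 := by positivity
  have ha2 : 1 ≤ α ^ 2 := one_le_pow₀ ha
  have ha20 : 0 < α ^ 2 := by linarith
  have hA2 : A ^ 2 ≤ t ^ 2 / 1000000 := by nlinarith
  have h6 : τ ^ 6 ≤ 6001 / 10 * (t * w ^ 2) + 400 * |η| := by linarith
  -- multiply by α² t³
  have h7 : α ^ 2 * τ ^ 6 * t ^ 3 ≤ 6001 / 90 * (t * A ^ 2) + 400 * (α ^ 2 * K) := by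
    have e1 : α ^ 2 * τ ^ 6 * t ^ 3 ≤ α ^ 2 * (6001 / 10 * (t * w ^ 2) + 400 * |η|) * t ^ 3 :=
      mul_le_mul_of_nonneg_right (mul_le_mul_of_nonneg_left h6 ha20.le) ht3.le
    have e2 : t * (9 * α ^ 2 * w ^ 2 * t ^ 3) ≤ t * A ^ 2 := mul_le_mul_of_nonneg_left hw ht0.le
    have e3 : α ^ 2 * (|η| * t ^ 3) ≤ α ^ 2 * K := mul_le_mul_of_nonneg_left he ha20.le
    nlinarith
  have h8 : t * A ^ 2 ≤ t ^ 3 / 1000000 := by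
    have := mul_le_mul_of_nonneg_left hA2 ht0.le
    nlinarith
  have h9 : (29 / 100 : ℝ) ^ 2 ≤ α ^ 2 * τ ^ 6 := by
    have e : α ^ 2 * τ ^ 6 = (α * τ ^ 3) ^ 2 := by ring
    rw [e]
    exact pow_le_pow_left₀ (by norm_num) hΔ 2
  have h10 : (29 / 100 : ℝ) ^ 2 * t ^ 3 ≤ α ^ 2 * τ ^ 6 * t ^ 3 :=
    mul_le_mul_of_nonneg_right h9 ht3.le
  have h11 : 6001 / 90 * (t * A ^ 2) ≤ α ^ 2 * K := by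
    norm_num at h10
    nlinarith
  have h12 : τ ^ 6 * t ^ 3 ≤ 401 * K := by
    have e : α ^ 2 * (τ ^ 6 * t ^ 3) ≤ α ^ 2 * (401 * K) := by nlinarith
    exact le_of_mul_le_mul_left e ha20
  have hτ6 : 0 < τ ^ 6 := by positivity
  refine ⟨h12, ?_, ?_⟩
  · have e : (α * τ ^ 3 * A) ^ 2 = τ ^ 6 * (α ^ 2 * A ^ 2) := by ring
    rw [e]
    exact (mul_le_mul_of_nonneg_left haA hτ6.le).trans h12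
  · by_contra hcon
    push Not at hcon
    have e1 : 1 < (τ * B) ^ 6 := one_lt_pow₀ hcon (by norm_num)
    have e2 : τ ^ 6 * (800 * K * B ^ 6) ≤ 401 * K :=
      (mul_le_mul_of_nonneg_left hKB hτ6.le).trans h12
    have e3 : τ ^ 6 * (800 * K * B ^ 6) = 800 * K * (τ * B) ^ 6 := by ring
    rw [e3] at e2
    nlinarith

end Pool.Agent.Work.MP_f2148a_nt.M56
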