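import Pool.Agent.Work.MP_f2148a_nt.M56.S1.Sz

set_option autoImplicit false

/-!
MODULE S1/RL (S-M). Regime `|l'| = τ⁴`: then `τ² t ≤ (53/10) A²` and `τ B ≤ 1`.

PROOF. `τ⁸ = L² ≤ (2001/1000)² t²w²` with `L = w(2t-w)` (sizes). Multiply by `α²`: `α²τ⁶·τ² = α²τ⁸ ≤ 4.005 t²·α²w²`, and
`α²w²·9t³ ≤ A²`, so `(α²τ⁶) τ² t ≤ 4.005·t³α²w² ≤ 0.446 A²`. As `α²τ⁶ = (ατ³)² ≥ (29/100)² = 0.0841`:
`τ²t ≤ 5.3 A²`. Then `τ²B²·6A² ≤ τ²·t ≤ 5.3A²` (`AB : 6A²B² ≤ t`), so `τ²B² ≤ 1`, `τB ≤ 1`.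
-/

namespace Pool.Agent.Work.MP_f2148a_nt.M56

theorem reg_L {K A B t α w η τ : ℝ} (h : Num K A B t α w η) (hτ : 0 < τ)
    (hΔ : 29 / 100 ≤ α * τ ^ 3) (hL : |w * (2 * t - w)| = τ ^ 4) :
    τ ^ 2 * t ≤ 53 / 10 * A ^ 2 ∧ τ * B ≤ 1 := by
  obtain ⟨-, h1, -, -⟩ := sizes h
  rw [hL] at h1
  have ht : 0 < t := by linarith [h.t_ge]
  have hA : 0 < A := by linarith [h.A_ge]
  have hB : 0 < B := by linarith [h.B_ge]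
  have h2 : τ ^ 8 ≤ (2001 / 1000) ^ 2 * (t ^ 2 * w ^ 2) := by
    have h3 : (τ ^ 4) ^ 2 ≤ (2001 / 1000 * (t * |w|)) ^ 2 :=
      pow_le_pow_left₀ (by positivity) h1 2
    have h4 : (2001 / 1000 * (t * |w|)) ^ 2 = (2001 / 1000) ^ 2 * (t ^ 2 * w ^ 2) := by
      rw [mul_pow, mul_pow, sq_abs]
    rw [h4] at h3
    calc τ ^ 8 = (τ ^ 4) ^ 2 := by ring
      _ ≤ _ := h3
  have h5 : 9 * (τ ^ 2 * t) * (α * τ ^ 3) ^ 2 ≤ (2001 / 1000) ^ 2 * A ^ 2 := by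
    have h6 : 9 * t * α ^ 2 * τ ^ 8 ≤ 9 * t * α ^ 2 * ((2001 / 1000) ^ 2 * (t ^ 2 * w ^ 2)) :=
      mul_le_mul_of_nonneg_left h2 (by positivity)
    have h7 : 9 * t * α ^ 2 * ((2001 / 1000) ^ 2 * (t ^ 2 * w ^ 2)) =
        (2001 / 1000) ^ 2 * (9 * α ^ 2 * w ^ 2 * t ^ 3) := by ring
    have h8 := mul_le_mul_of_nonneg_left h.w_le (by norm_num : (0 : ℝ) ≤ (2001 / 1000) ^ 2)
    calc 9 * (τ ^ 2 * t) * (α * τ ^ 3) ^ 2 = 9 * t * α ^ 2 * τ ^ 8 := by ring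
      _ ≤ _ := h6
      _ = _ := h7
      _ ≤ _ := h8
  have h9 : (29 / 100 : ℝ) ^ 2 ≤ (α * τ ^ 3) ^ 2 := pow_le_pow_left₀ (by norm_num) hΔ 2
  have h10 : τ ^ 2 * t ≤ 53 / 10 * A ^ 2 := by
    have h11 : 0 ≤ 9 * (τ ^ 2 * t) := by positivity
    have h12 := mul_le_mul_of_nonneg_left h9 h11
    have h13 : 0 < A ^ 2 := by positivity
    nlinarith
  refine ⟨h10, ?_⟩
  have h14 : τ ^ 2 * (6 * A ^ 2 * B ^ 2) ≤ τ ^ 2 * t :=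
    mul_le_mul_of_nonneg_left h.AB (by positivity)
  have h15 : A ^ 2 * (6 * (τ * B) ^ 2) ≤ A ^ 2 * (53 / 10) := by
    calc A ^ 2 * (6 * (τ * B) ^ 2) = τ ^ 2 * (6 * A ^ 2 * B ^ 2) := by ring
      _ ≤ _ := h14
      _ ≤ _ := h10
      _ = _ := by ring
  have h16 : 6 * (τ * B) ^ 2 ≤ 53 / 10 := le_of_mul_le_mul_left h15 (by positivity)
  have h17 : 0 < τ * B := by positivity
  nlinarith

end Pool.Agent.Work.MP_f2148a_nt.M56
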