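import Pool.Agent.Work.MP_f2148a_nt.M56.S1.Alg
import Pool.Agent.Work.MP_f2148a_nt.M56.G3.Coord

set_option autoImplicit false

/-!
# MP_f2148a_nt, block S1: the real forms of `z⁰`, `3F` and their Jacobian (proved)
-/

namespace Pool.Agent.Work.MP_f2148a_nt.M56

/-- `Q₁(ξ,υ)` -/
def Q1 (l c ξ υ : ℝ) : ℝ := ξ ^ 4 - 6 * l * ξ ^ 2 * υ ^ 2 - 2 * c * ξ * υ ^ 3 - 3 * l ^ 2 * υ ^ 4

/-- `Q₂(ξ,υ)` -/
def Q2 (c ξ υ : ℝ) : ℝ := 2 * ξ ^ 3 * υ - c * υ ^ 4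

/-- the Jacobian of `ξ³+3lξυ²+cυ³` and `d₁Q₁+d₂Q₂` -/
def QJ (l c d₁ d₂ ξ υ : ℝ) : ℝ :=
  (3 * ξ ^ 2 + 3 * l * υ ^ 2) *
      (d₁ * (-12 * l * ξ ^ 2 * υ - 6 * c * ξ * υ ^ 2 - 12 * l ^ 2 * υ ^ 3)
        + d₂ * (2 * ξ ^ 3 - 4 * c * υ ^ 3))
    - (6 * l * ξ * υ + 3 * c * υ ^ 2) *
      (d₁ * (4 * ξ ^ 3 - 12 * l * ξ * υ ^ 2 - 2 * c * υ ^ 3) + d₂ * (6 * ξ ^ 2 * υ))

section

variable {x y α β : ℤ} {ω τ Δ l c : ℝ} (hα : 1 ≤ α) (hτ : 0 < τ)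
  (h : Dep (Z0 x y α β) ω τ Δ l c)

include hα hτ h

theorem real_q4 (s t X Y : ℤ) : ((q4v (q4 x y α β s t) X Y : ℤ) : ℝ) =
    9 * Δ * (s * τ / (3 * α) * Q1 l c (((X : ℝ) + ω * Y) / τ) (τ * Y)
      + (-(2 * ω * s) / (3 * α * τ) + t * α / (3 * τ)) * Q2 c (((X : ℝ) + ω * Y) / τ) (τ * Y)) := by
  have hα0 : (0 : ℝ) < α := by exact_mod_cast hα
  obtain ⟨h1, h2, h3, h4⟩ := G3.of_dep hα hτ h
  have hl' : l = (x - ω ^ 2) / τ ^ 4 := by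
    rw [eq_div_iff (by positivity)]
    exact h3
  have hc' : c = (2 * ω ^ 3 - 6 * x * ω - 4 * y) / τ ^ 6 := by
    rw [eq_div_iff (by positivity)]
    exact h4
  rw [q4v_q4, hl', hc', h1, h2]
  unfold Q1 Q2 F0 G1
  push_cast
  field_simp
  ring

theorem real_val (X Y : ℤ) : (((Z0 x y α β).val X Y : ℤ) : ℝ) =
    Δ * ((((X : ℝ) + ω * Y) / τ) ^ 3 + 3 * l * (((X : ℝ) + ω * Y) / τ) * (τ * Y) ^ 2
      + c * (τ * Y) ^ 3) := by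
  have hα0 : (0 : ℝ) < α := by exact_mod_cast hα
  obtain ⟨h1, h2, h3, h4⟩ := G3.of_dep hα hτ h
  have hl' : l = (x - ω ^ 2) / τ ^ 4 := by
    rw [eq_div_iff (by positivity)]
    exact h3
  have hc' : c = (2 * ω ^ 3 - 6 * x * ω - 4 * y) / τ ^ 6 := by
    rw [eq_div_iff (by positivity)]
    exact h4
  rw [hl', hc', h1, h2]
  simp only [Cub.val, Z0]
  push_cast
  field_simp
  ring

theorem real_Jac (s t X Y : ℤ) : ((Jac (Z0 x y α β) (q4 x y α β s t) X Y : ℤ) : ℝ) =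
    9 * Δ ^ 2 * QJ l c (s * τ / (3 * α)) (-(2 * ω * s) / (3 * α * τ) + t * α / (3 * τ))
      (((X : ℝ) + ω * Y) / τ) (τ * Y) := by
  have hα0 : (0 : ℝ) < α := by exact_mod_cast hα
  obtain ⟨h1, h2, h3, h4⟩ := G3.of_dep hα hτ h
  have hl' : l = (x - ω ^ 2) / τ ^ 4 := by
    rw [eq_div_iff (by positivity)]
    exact h3
  have hc' : c = (2 * ω ^ 3 - 6 * x * ω - 4 * y) / τ ^ 6 := by
    rw [eq_div_iff (by positivity)]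
    exact h4
  rw [hl', hc', h1, h2]
  simp only [Jac, Z0, q4]
  unfold QJ
  push_cast
  field_simp
  ring

end

end Pool.Agent.Work.MP_f2148a_nt.M56
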