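import Pool.Agent.Work.MP_f2148a_nt.M56.S1.Sz

set_option autoImplicit false

/-!
MODULE S1/SG (S-M). The quantity `σ = 2|ω|/(3ατ)`, `ω = w - t`, `Δ = ατ³`.

PROOF. `|w| ≤ 1/1000 ≤ t/10⁷` (sizes, `t ≥ 10⁴`), so `|ω| = t - w` lies in `[999t/1000, 1001t/1000]`.
`Δσ = (2/3)|ω|τ²` (`field_simp`), so `Δσ ≤ (1001/1500) t τ² ≤ τ²t`, `τ²t ≤ 2Δσ` (`4/3·999/1000 ≥ 1`) and
`Δσ ≤ (67/100)τ²t`.
`σ³Δ = (8/27)|ω|³/α²`, `|ω|³ ≥ (999/1000)³t³ ≥ 0.997t³`, `t³ ≥ α²A²`: `4σ³Δ ≥ (32/27)·0.997 A² ≥ A²`.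
Last: with `Δ² ≤ A`: `A⁴ ≤ 16σ⁶Δ² ≤ 16σ⁶A`, so `A³ ≤ 16σ⁶ ≤ (4σ²)³`, `A ≤ 4σ²`.
-/

namespace Pool.Agent.Work.MP_f2148a_nt.M56

theorem sig_facts {K A B t α w η τ σ : ℝ} (h : Num K A B t α w η) (hτ : 0 < τ)
    (hσ : σ = 2 * |w - t| / (3 * α * τ)) :
    w - t ≤ -1000 ∧ 0 < σ ∧ α * τ ^ 3 * σ ≤ 67 / 100 * (τ ^ 2 * t) ∧
      τ ^ 2 * t ≤ 2 * (α * τ ^ 3 * σ) ∧ A ^ 2 ≤ 4 * (σ ^ 3 * (α * τ ^ 3)) ∧
      ((α * τ ^ 3) ^ 2 ≤ A → A ≤ 4 * σ ^ 2) := by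
  obtain ⟨h8, -, -, -⟩ := sizes h
  have ht := h.t_ge
  have ht0 : (0 : ℝ) < t := by linarith
  have hA := h.A_ge
  have ha := h.a_ge
  have ha0 : (0 : ℝ) < α := by linarith
  have hat := h.a_le
  obtain ⟨h9, h10⟩ := abs_le.mp h8
  have habs : |w - t| = t - w := by
    rw [abs_of_neg (by linarith)]
    ring
  set v := t - w with hv
  have hv1 : 999 / 1000 * t ≤ v := by linarith
  have hv2 : v ≤ 1001 / 1000 * t := by linarith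
  have hv0 : 0 < v := by linarith
  rw [habs] at hσ
  have hσ0 : 0 < σ := by
    rw [hσ]
    positivity
  have e1 : α * τ ^ 3 * σ = 2 / 3 * (v * τ ^ 2) := by
    rw [hσ]
    field_simp
  have e2 : σ ^ 3 * (α * τ ^ 3) * α ^ 2 = 8 / 27 * v ^ 3 := by
    rw [hσ]
    field_simp
    ring
  have ht2 : 0 < τ ^ 2 := by positivity
  have e3 : A ^ 2 ≤ 4 * (σ ^ 3 * (α * τ ^ 3)) := by
    have h11 : (999 / 1000 * t) ^ 3 ≤ v ^ 3 := pow_le_pow_left₀ (by positivity) hv1 3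
    have h12 : α ^ 2 * A ^ 2 ≤ α ^ 2 * (4 * (σ ^ 3 * (α * τ ^ 3))) := by
      have h13 : (0 : ℝ) ≤ t ^ 3 := by positivity
      nlinarith
    exact le_of_mul_le_mul_left h12 (by positivity)
  refine ⟨by linarith, hσ0, ?_, ?_, e3, ?_⟩
  · rw [e1]
    nlinarith [mul_le_mul_of_nonneg_right hv2 ht2.le, mul_pos ht2 ht0]
  · rw [e1]
    nlinarith [mul_le_mul_of_nonneg_right hv1 ht2.le, mul_pos ht2 ht0]
  · intro hD
    set D := α * τ ^ 3 with hDdef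
    have hD0 : 0 < D := by positivity
    have hA0 : 0 < A := by linarith
    have h14 : (A ^ 2) ^ 2 ≤ (4 * (σ ^ 3 * D)) ^ 2 := pow_le_pow_left₀ (by positivity) e3 2
    have h15 : A ^ 3 ≤ (4 * σ ^ 2) ^ 3 := by
      have h16 : A * A ^ 3 ≤ A * (16 * σ ^ 6) := by
        have h17 : σ ^ 6 * D ^ 2 ≤ σ ^ 6 * A := mul_le_mul_of_nonneg_left hD (by positivity)
        nlinarith
      have h18 := le_of_mul_le_mul_left h16 hA0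
      have h19 : (0 : ℝ) ≤ σ ^ 6 := by positivity
      nlinarith
    exact le_of_pow_le_pow_left₀ (by norm_num) (by positivity) h15

end Pool.Agent.Work.MP_f2148a_nt.M56
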