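import Pool.Agent.Work.MP_f2148a_nt.M56.S1.Sz

set_option autoImplicit false

/-!
MODULE S1/TY (M). Type I: `|c'| (Δσ)³ ≤ 20 K τ⁶`.

PROOF. `L = w(2t-w)`, `C = 2w³-6tw²-4η`. `τ⁴ = |L| ≥ 1.999 t|w|` (sizes), so `t²w² ≤ τ⁸/3.99`, and
`t³·6.001·t w² ≤ 6.001 t²·τ⁸/3.99 ≤ 1.51 t²τ⁸`. With `4|η|t³ ≤ 4K`:
`|C| t³ ≤ 1.51 t²τ⁸ + 4K`.  `(Δσ)³ ≤ (67/100)³ t³τ⁶ ≤ 0.31 t³τ⁶`, so
`|C|(Δσ)³ ≤ 0.31 τ⁶·|C|t³ ≤ τ⁶(0.47 t²τ⁸ + 1.24K)`.  Finally `(τ²t)⁴ ≤ (5.3A²)⁴ ≤ 790 A⁸` and `1000A⁸ ≤ Kt²`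
(`A8`), so `t²·(τ⁸t²) = (τ²t)⁴ ≤ 0.79 K t²`, i.e. `τ⁸t² ≤ 0.79K`; total `≤ τ⁶·20K`.
-/

namespace Pool.Agent.Work.MP_f2148a_nt.M56

theorem type_I {K A B t α w η τ P : ℝ} (h : Num K A B t α w η) (hτ : 0 < τ)
    (hL : |w * (2 * t - w)| = τ ^ 4) (ht : τ ^ 2 * t ≤ 53 / 10 * A ^ 2) (hP : 0 ≤ P)
    (hP' : P ≤ 67 / 100 * (τ ^ 2 * t)) :
    |2 * w ^ 3 - 6 * t * w ^ 2 - 4 * η| * P ^ 3 ≤ 20 * K * τ ^ 6 := by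
  obtain ⟨-, -, h3, h4⟩ := sizes h
  have ht0 : (0 : ℝ) < t := by linarith [h.t_ge]
  have hK : (0 : ℝ) < K := by linarith [h.K_ge]
  have hη := h.eta_le
  rw [hL] at h3
  have h5 : t ^ 2 * w ^ 2 ≤ 251 / 1000 * τ ^ 8 := by
    have h6 := pow_le_pow_left₀ (by positivity : (0 : ℝ) ≤ 1999 / 1000 * (t * |w|)) h3 2
    have h7 : (1999 / 1000 * (t * |w|)) ^ 2 = (1999 / 1000) ^ 2 * (t ^ 2 * w ^ 2) := by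
      rw [mul_pow, mul_pow, sq_abs]
    have h8 : (τ ^ 4) ^ 2 = τ ^ 8 := by ring
    rw [h7, h8] at h6
    have h9 : 0 ≤ t ^ 2 * w ^ 2 := by positivity
    nlinarith
  have h10 : |2 * w ^ 3 - 6 * t * w ^ 2 - 4 * η| * t ^ 3 ≤ 151 / 100 * (τ ^ 8 * t ^ 2) + 4 * K := by
    have h11 : |2 * w ^ 3 - 6 * t * w ^ 2 - 4 * η| * t ^ 3
        ≤ (6001 / 1000 * (t * w ^ 2) + 4 * |η|) * t ^ 3 :=
      mul_le_mul_of_nonneg_right h4 (by positivity)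
    have h12 : (6001 / 1000 * (t * w ^ 2) + 4 * |η|) * t ^ 3
        = 6001 / 1000 * (t ^ 2 * (t ^ 2 * w ^ 2)) + 4 * (|η| * t ^ 3) := by ring
    have h13 : t ^ 2 * (t ^ 2 * w ^ 2) ≤ t ^ 2 * (251 / 1000 * τ ^ 8) :=
      mul_le_mul_of_nonneg_left h5 (by positivity)
    have h14 : 0 ≤ τ ^ 8 * t ^ 2 := by positivity
    nlinarith
  have h20 : τ ^ 8 * t ^ 2 ≤ 79 / 100 * K := by
    have h21 := pow_le_pow_left₀ (by positivity : (0 : ℝ) ≤ τ ^ 2 * t) ht 4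
    have h22 := h.A8
    have h23 : (53 / 10 * A ^ 2) ^ 4 = (53 / 10) ^ 4 * A ^ 8 := by ring
    rw [h23] at h21
    have h24 : t ^ 2 * (τ ^ 8 * t ^ 2) = (τ ^ 2 * t) ^ 4 := by ring
    have h25 : t ^ 2 * (τ ^ 8 * t ^ 2) ≤ t ^ 2 * (79 / 100 * K) := by
      rw [h24]
      have h26 : 0 ≤ A ^ 8 := by positivity
      nlinarith
    exact le_of_mul_le_mul_left h25 (by positivity)
  have h30 : P ^ 3 ≤ 31 / 100 * (τ ^ 6 * t ^ 3) := by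
    have h31 := pow_le_pow_left₀ hP hP' 3
    have h32 : (67 / 100 * (τ ^ 2 * t)) ^ 3 = (67 / 100) ^ 3 * (τ ^ 6 * t ^ 3) := by ring
    rw [h32] at h31
    have h33 : 0 ≤ τ ^ 6 * t ^ 3 := by positivity
    nlinarith
  have h40 : |2 * w ^ 3 - 6 * t * w ^ 2 - 4 * η| * t ^ 3 ≤ 6 * K := by linarith
  calc |2 * w ^ 3 - 6 * t * w ^ 2 - 4 * η| * P ^ 3
      ≤ |2 * w ^ 3 - 6 * t * w ^ 2 - 4 * η| * (31 / 100 * (τ ^ 6 * t ^ 3)) :=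
        mul_le_mul_of_nonneg_left h30 (abs_nonneg _)
    _ = 31 / 100 * τ ^ 6 * (|2 * w ^ 3 - 6 * t * w ^ 2 - 4 * η| * t ^ 3) := by ring
    _ ≤ 31 / 100 * τ ^ 6 * (6 * K) := mul_le_mul_of_nonneg_left h40 (by positivity)
    _ ≤ 20 * K * τ ^ 6 := by
        have h41 : 0 ≤ K * τ ^ 6 := by positivity
        nlinarith

end Pool.Agent.Work.MP_f2148a_nt.M56
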