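import Mathlib

set_option autoImplicit false

/-!
MODULE S1/Tau (S, only Mathlib). Choice of `τ`.

PROOF. `τ = max (|L|^(1/4)) (|C|^(1/6))` (real powers, `Real.rpow`), `τ > 0` because `L`, `C` are not both 0.
`(|L|^(1/4))^4 = |L|` (`Real.rpow_natCast`, `Real.rpow_mul`), so `|L| ≤ τ⁴`, `|C| ≤ τ⁶`, with equality in one of the two.
-/

namespace Pool.Agent.Work.MP_f2148a_nt.M56

private theorem exists_root {a : ℝ} (ha : 0 ≤ a) {n : ℕ} (hn : n ≠ 0) : ∃ x : ℝ, 0 ≤ x ∧ x ^ n = a :=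
  ⟨a ^ ((n : ℝ)⁻¹), Real.rpow_nonneg ha _, Real.rpow_inv_natCast_pow ha hn⟩

theorem exists_tau {L C : ℝ} (h : 4 * L ^ 3 + C ^ 2 ≠ 0) :
    ∃ τ : ℝ, 0 < τ ∧ |L| ≤ τ ^ 4 ∧ |C| ≤ τ ^ 6 ∧ (|L| = τ ^ 4 ∨ |C| = τ ^ 6) := by
  obtain ⟨x, hx0, hx⟩ := exists_root (abs_nonneg L) (n := 4) (by norm_num)
  obtain ⟨y, hy0, hy⟩ := exists_root (abs_nonneg C) (n := 6) (by norm_num)
  have hpos : 0 < max x y := by
    rcases lt_or_eq_of_le hx0 with h1 | h1
    · exact lt_max_of_lt_left h1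
    · rcases lt_or_eq_of_le hy0 with h2 | h2
      · exact lt_max_of_lt_right h2
      · exfalso
        apply h
        rw [← h1] at hx
        rw [← h2] at hy
        have hL : L = 0 := by
          rw [← abs_eq_zero, ← hx]
          norm_num
        have hC : C = 0 := by
          rw [← abs_eq_zero, ← hy]
          norm_num
        rw [hL, hC]
        norm_num
  refine ⟨max x y, hpos, ?_, ?_, ?_⟩
  · rw [← hx]
    exact pow_le_pow_left₀ hx0 (le_max_left _ _) 4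
  · rw [← hy]
    exact pow_le_pow_left₀ hy0 (le_max_right _ _) 6
  · rcases le_total x y with h1 | h1
    · right
      rw [max_eq_right h1, hy]
    · left
      rw [max_eq_left h1, hx]

end Pool.Agent.Work.MP_f2148a_nt.M56
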