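import Pool.Agent.Work.MP_f2148a_nt.M56.S1.Int
import Pool.Agent.Work.MP_f2148a_nt.M56.S1.Real
import Pool.Agent.Work.MP_f2148a_nt.M56.S1.ABd
import Pool.Agent.Work.MP_f2148a_nt.M56.S1.D2
import Pool.Agent.Work.MP_f2148a_nt.M56.S1.Mono
import Pool.Agent.Work.MP_f2148a_nt.M56.S1.Inj
import Pool.Agent.Work.MP_f2148a_nt.M56.S1.Dir
import Pool.Agent.Work.MP_f2148a_nt.M56.S1.Disc1
import Pool.Agent.Work.MP_f2148a_nt.M56.S1.Disc2
import Pool.Agent.Work.MP_f2148a_nt.M56.S1.Sz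
import Pool.Agent.Work.MP_f2148a_nt.M56.S1.DL
import Pool.Agent.Work.MP_f2148a_nt.M56.S1.RL
import Pool.Agent.Work.MP_f2148a_nt.M56.S1.RC
import Pool.Agent.Work.MP_f2148a_nt.M56.S1.SG
import Pool.Agent.Work.MP_f2148a_nt.M56.S1.TY
import Pool.Agent.Work.MP_f2148a_nt.M56.S1.Tau
import Pool.Agent.Work.MP_f2148a_nt.M56.S1.Ev
import Pool.Agent.Work.MP_f2148a_nt.M56.S1.Prim

set_option autoImplicit false

/-!
# MP_f2148a_nt, block S1: final statements `own_exists`, `transfer` (helper98)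

`inj_pt` (injectivity in a box) is in S1/Inj, `prim_eq` in S1/Prim.
-/

namespace Pool.Agent.Work.MP_f2148a_nt.M56

/-- Every giant has own data. -/
theorem own_exists : ∃ K₀ : ℝ, 1 ≤ K₀ ∧ ∀ K : ℝ, K₀ ≤ K → ∀ A : ℝ, K ^ (39 / 100 : ℝ) ≤ A →
    A ≤ K ^ (31 / 75 : ℝ) → ∀ x y : ℤ, 0 < y → K ^ (13 / 5 : ℝ) ≤ (x : ℝ) → y ^ 2 ≠ x ^ 3 →
    |((y ^ 2 - x ^ 3 : ℤ) : ℝ)| ≤ K →
    ∃ (α β : ℤ) (ω τ Δ l c σ : ℝ), Own K A x y α β ω τ Δ l c σ := by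
  obtain ⟨K₀, hK₀, H⟩ := num_ev
  refine ⟨K₀, hK₀, fun K hK A hA hA' x y hy hx hk hkK => ?_⟩
  have hK1 : 1 ≤ K := hK₀.trans hK
  have hK0 : 0 < K := by linarith
  have hxpos : (0 : ℝ) < x := lt_of_lt_of_le (Real.rpow_pos_of_pos hK0 _) hx
  have hxposZ : 0 < x := by exact_mod_cast hxpos
  set t : ℝ := Real.sqrt x with ht
  have ht2 : t ^ 2 = x := Real.sq_sqrt hxpos.le
  have htK : K ^ (13 / 10 : ℝ) ≤ t := by
    rw [ht]
    apply Real.le_sqrt_of_sq_le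
    rw [← Real.rpow_natCast, ← Real.rpow_mul hK0.le]
    norm_num
    exact hx
  obtain ⟨hA2, hB1, ht4, hAt, hKA, hA8, hAB, hKB, hdK, hB100⟩ := H K hK A t hA hA' htK
  have htpos : 0 < t := by linarith
  have hApos : 0 < A := by linarith
  have hA2t : A ^ 2 ≤ t ^ 3 := by
    have h1 : A ^ 2 ≤ t ^ 2 := by
      apply pow_le_pow_left₀ hApos.le
      linarith
    have h2 : t ^ 2 ≤ t ^ 3 := pow_le_pow_right₀ (by linarith) (by norm_num)
    linarith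
  obtain ⟨α, β, hα, cop, hαA, hβ⟩ := dirich hApos htpos hA2t
  have hα0 : (0 : ℝ) < α := by exact_mod_cast hα
  have hα1 : (1 : ℝ) ≤ α := by exact_mod_cast hα
  set ω : ℝ := (β : ℝ) / (3 * α) with hω
  have hβω : (β : ℝ) = 3 * α * ω := by
    rw [hω]; field_simp
  set w : ℝ := t + ω with hw
  set η : ℝ := (y : ℝ) - t ^ 3 with hη
  have hwω : ω = w - t := by rw [hw]; ring
  have hyη : (y : ℝ) = t ^ 3 + η := by rw [hη]; ring
  have hyr : (0 : ℝ) < y := by exact_mod_cast hy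
  have hηK : |η| * t ^ 3 ≤ K := by
    have h1 : ((y ^ 2 - x ^ 3 : ℤ) : ℝ) = η * (y + t ^ 3) := by
      push_cast
      rw [← ht2, hη]
      ring
    rw [h1, abs_mul, abs_of_pos (by positivity : (0 : ℝ) < y + t ^ 3)] at hkK
    have h2 : |η| * t ^ 3 ≤ |η| * (y + t ^ 3) := by
      apply mul_le_mul_of_nonneg_left _ (abs_nonneg _)
      linarith
    linarith
  have hN : Num K A (K ^ (1 / 5 : ℝ)) t α w η := by
    refine ⟨hK1, hA2, hB1, ht4, hAt, hα1, hαA, ?_, hηK, hKA, hA8, hAB, hKB⟩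
    have : (3 * (α : ℝ) * t + β) ^ 2 = 9 * α ^ 2 * w ^ 2 := by
      rw [hβω, hw]; ring
    rw [← this]
    exact hβ
  set L : ℝ := w * (2 * t - w) with hL
  set C : ℝ := 2 * w ^ 3 - 6 * t * w ^ 2 - 4 * η with hC
  have hLx : L = x - ω ^ 2 := by
    rw [hL, hwω, ← ht2]; ring
  have hCx : C = 2 * ω ^ 3 - 6 * x * ω - 4 * y := by
    rw [hC, hwω, hyη, ← ht2]; ring
  have hdisc : (((Z0 x y α β).disc : ℤ) : ℝ) = -27 * α ^ 4 * (4 * L ^ 3 + C ^ 2) := by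
    rw [hLx, hCx]
    simp only [Cub.disc, Z0]
    push_cast
    rw [hβω]
    ring
  have hd0 : (Z0 x y α β).disc ≠ 0 := by
    intro h0
    obtain ⟨n, hn⟩ := disc_root (by omega) h0
    have h1 := root_big hxposZ hk hn
    have h2 : ((x : ℝ)) ^ 3 ≤ 10 ^ 8 * ((y ^ 2 - x ^ 3 : ℤ) : ℝ) ^ 4 := by exact_mod_cast h1
    have h3 : ((y ^ 2 - x ^ 3 : ℤ) : ℝ) ^ 4 ≤ K ^ 4 := by
      have h4 : |((y ^ 2 - x ^ 3 : ℤ) : ℝ)| ^ 4 ≤ K ^ 4 := pow_le_pow_left₀ (abs_nonneg _) hkK 4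
      have h5 : |((y ^ 2 - x ^ 3 : ℤ) : ℝ)| ^ 4 = ((y ^ 2 - x ^ 3 : ℤ) : ℝ) ^ 4 := by
        rw [show (4 : ℕ) = 2 * 2 from rfl, pow_mul, sq_abs, ← pow_mul]
      linarith
    have h4 : t ^ 6 = (x : ℝ) ^ 3 := by rw [← ht2]; ring
    nlinarith
  have hLC : 4 * L ^ 3 + C ^ 2 ≠ 0 := by
    intro h0
    rw [h0, mul_zero] at hdisc
    exact hd0 (by exact_mod_cast hdisc)
  obtain ⟨τ, hτ, hLτ, hCτ, hor⟩ := exists_tau hLC
  have hτne : τ ≠ 0 := hτ.ne'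
  have hΔge : 29 / 100 ≤ (α : ℝ) * τ ^ 3 := by
    have h1 : (1 : ℝ) ≤ |(((Z0 x y α β).disc : ℤ) : ℝ)| := by
      have := Int.one_le_abs hd0
      exact_mod_cast this
    have h2 : |(((Z0 x y α β).disc : ℤ) : ℝ)| = 27 * α ^ 4 * |4 * L ^ 3 + C ^ 2| := by
      rw [hdisc, abs_mul, abs_mul, abs_pow, abs_of_pos hα0]
      norm_num
    have h3 : |4 * L ^ 3 + C ^ 2| ≤ 5 * τ ^ 12 := by
      have e1 : |4 * L ^ 3 + C ^ 2| ≤ 4 * |L| ^ 3 + |C| ^ 2 := by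
        calc |4 * L ^ 3 + C ^ 2| ≤ |4 * L ^ 3| + |C ^ 2| := abs_add_le _ _
          _ = 4 * |L| ^ 3 + |C| ^ 2 := by rw [abs_mul, abs_pow, abs_pow]; norm_num
      have e2 : |L| ^ 3 ≤ (τ ^ 4) ^ 3 := pow_le_pow_left₀ (abs_nonneg _) hLτ 3
      have e3 : |C| ^ 2 ≤ (τ ^ 6) ^ 2 := pow_le_pow_left₀ (abs_nonneg _) hCτ 2
      have e4 : (τ ^ 4) ^ 3 = τ ^ 12 := by ring
      have e5 : (τ ^ 6) ^ 2 = τ ^ 12 := by ring
      linarith
    have h4 : (1 : ℝ) ≤ 135 * ((α : ℝ) * τ ^ 3) ^ 4 := by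
      have e1 : 27 * (α : ℝ) ^ 4 * |4 * L ^ 3 + C ^ 2| ≤ 27 * (α : ℝ) ^ 4 * (5 * τ ^ 12) :=
        mul_le_mul_of_nonneg_left h3 (by positivity)
      have e2 : 27 * (α : ℝ) ^ 4 * (5 * τ ^ 12) = 135 * ((α : ℝ) * τ ^ 3) ^ 4 := by ring
      linarith
    by_contra h5
    push Not at h5
    have h6 : ((α : ℝ) * τ ^ 3) ^ 4 ≤ (29 / 100 : ℝ) ^ 4 :=
      pow_le_pow_left₀ (by positivity) h5.le 4
    norm_num at h6
    linarith
  have hD2 : ((α : ℝ) * τ ^ 3) ^ 2 ≤ A := D_up hN hτ hor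
  set σ : ℝ := 2 * |ω| / (3 * α * τ) with hσ
  have hσ' : σ = 2 * |w - t| / (3 * α * τ) := by rw [hσ, hwω]
  obtain ⟨s1, s2, s3, s4, s5, s6⟩ := sig_facts hN hτ hσ'
  set Δ : ℝ := α * τ ^ 3 with hΔ
  have hΔpos : 0 < Δ := by positivity
  have hτB : τ * K ^ (1 / 5 : ℝ) ≤ 1 ∧ Δ * σ ≤ 5 * A ^ 2 ∧
      ((|L| = τ ^ 4 ∧ 100 * |C| ≤ τ ^ 6 ∧ |C| * (Δ * σ) ^ 3 ≤ 20 * K * τ ^ 6) ∨
        (Δ * σ ≤ 10 * K ^ (1 / 3 : ℝ) ∧ Δ * A ≤ 30 * K ^ (1 / 2 : ℝ))) := by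
    have hP0 : 0 ≤ Δ * σ := by positivity
    by_cases hcase : |L| = τ ^ 4 ∧ 100 * |C| ≤ τ ^ 6
    · obtain ⟨r1, r2⟩ := reg_L hN hτ hΔge hcase.1
      have hty := type_I hN hτ hcase.1 r1 hP0 s3
      refine ⟨r2, ?_, Or.inl ⟨hcase.1, hcase.2, hty⟩⟩
      nlinarith [sq_nonneg A]
    · have hCC : τ ^ 6 ≤ 100 * |C| := by
        rcases hor with h | h
        · by_contra h2
          push Not at h2
          exact hcase ⟨h, h2.le⟩
        · rw [← h]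
          linarith [abs_nonneg C]
      obtain ⟨r1, r2, r3⟩ := reg_C hN hτ hΔge hCC
      have hcube : (Δ * σ) ^ 3 ≤ 125 * K := by
        have e1 : (Δ * σ) ^ 3 ≤ (67 / 100 * (τ ^ 2 * t)) ^ 3 := pow_le_pow_left₀ hP0 s3 3
        have e2 : (67 / 100 * (τ ^ 2 * t)) ^ 3 = 300763 / 1000000 * (τ ^ 6 * t ^ 3) := by ring
        rw [e2] at e1
        linarith
      refine ⟨r3, ?_, Or.inr ⟨?_, ?_⟩⟩
      · have e3 : (Δ * σ) ^ 3 ≤ (5 * A ^ 2) ^ 3 := by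
          have e4 : (5 * A ^ 2) ^ 3 = 125 * A ^ 6 := by ring
          rw [e4]
          nlinarith
        exact le_of_pow_le_pow_left₀ (by norm_num) (by positivity) e3
      · have e3 : (Δ * σ) ^ 3 ≤ (10 * K ^ (1 / 3 : ℝ)) ^ 3 := by
          have e4 : (K ^ (1 / 3 : ℝ)) ^ 3 = K := by
            rw [← Real.rpow_natCast, ← Real.rpow_mul hK0.le]
            norm_num
          have e5 : (10 * K ^ (1 / 3 : ℝ)) ^ 3 = 1000 * K := by
            rw [mul_pow, e4]; norm_num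
          rw [e5]
          linarith
        exact le_of_pow_le_pow_left₀ (by norm_num) (by positivity) e3
      · have e3 : (Δ * A) ^ 2 ≤ (30 * K ^ (1 / 2 : ℝ)) ^ 2 := by
          have e4 : (K ^ (1 / 2 : ℝ)) ^ 2 = K := by
            rw [← Real.rpow_natCast, ← Real.rpow_mul hK0.le]
            norm_num
          have e5 : (30 * K ^ (1 / 2 : ℝ)) ^ 2 = 900 * K := by
            rw [mul_pow, e4]; norm_num
          rw [e5]
          linarith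
        exact le_of_pow_le_pow_left₀ (by norm_num) (by positivity) e3
  obtain ⟨hτB, hDs, htype⟩ := hτB
  refine ⟨α, β, ω, τ, Δ, L / τ ^ 4, C / τ ^ 6, σ, ?_⟩
  have habsl : |L / τ ^ 4| = |L| / τ ^ 4 := by
    rw [abs_div, abs_of_pos (by positivity : (0 : ℝ) < τ ^ 4)]
  have habsc : |C / τ ^ 6| = |C| / τ ^ 6 := by
    rw [abs_div, abs_of_pos (by positivity : (0 : ℝ) < τ ^ 6)]
  constructor
  · exact hα
  · exact cop
  · exact hω
  · rw [hwω]; exact s1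
  · exact hτ
  · have e1 : K ^ (-(1 / 5) : ℝ) = (K ^ (1 / 5 : ℝ))⁻¹ := Real.rpow_neg hK0.le _
    rw [e1, ← one_div, le_div_iff₀ (by positivity)]
    exact hτB
  · refine ⟨?_, ?_, ?_, ?_⟩
    · simp only [Z0]
      rw [hΔ]
      field_simp
    · simp only [Z0]
      rw [hΔ, hβω]
      field_simp
    · simp only [Z0]
      push_cast
      rw [hΔ, hLx]
      field_simp
      ring
    · simp only [Z0]
      push_cast
      rw [hΔ, hLx, hCx, hβω]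
      field_simp
      ring
  · exact hd0
  · rw [habsl, div_le_one (by positivity)]
    exact hLτ
  · rw [habsc, div_le_one (by positivity)]
    exact hCτ
  · rcases hor with h | h
    · left
      rw [habsl, h, div_self (by positivity)]
    · right
      rw [habsc, h, div_self (by positivity)]
  · exact hΔge
  · exact hD2
  · exact hσ
  · exact s5
  · exact s6 hD2
  · exact hDs
  · nlinarith [mul_pos (pow_pos hτ 2) htpos]
  · exact s4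
  · rcases htype with ⟨h1, h2, h3⟩ | h
    · left
      refine ⟨?_, ?_, ?_⟩
      · rw [habsl, h1, div_self (by positivity)]
      · rw [habsc, div_le_iff₀ (by positivity)]
        linarith
      · rw [habsc, div_mul_eq_mul_div, div_le_iff₀ (by positivity)]
        exact h3
    · right
      exact h

/-- Transfer of a second giant to the coordinates of the reference giant. -/
theorem transfer {K A : ℝ} (hK : 0 < K) (hK1 : 100 ≤ K ^ (1 / 5 : ℝ)) (hA : 4 ≤ A)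
    {x y α β x' y' α' β' : ℤ} {ω τ Δ l c σ ω' τ' Δ' l' c' σ' ρ : ℝ}
    (h : Own K A x y α β ω τ Δ l c σ) (h' : Own K A x' y' α' β' ω' τ' Δ' l' c' σ')
    (hρ1 : ρ ≤ 1 / 100) (hΔ1 : Δ' ≤ 2 * Δ) (hΔ2 : Δ ≤ 2 * Δ')
    (hcl : Close ρ (Z0 x y α β) τ (Z0 x' y' α' β') τ') :
    ∃ s t X Y : ℤ,
      (∀ i, (3 : ℤ) ∣ q4 x y α β s t i) ∧
      3 * s * F0 x y X Y + t * G1 x y α β X Y = 3 ∧
      J432 (q4 x y α β s t) = -46656 * (y' ^ 2 - x' ^ 3) ∧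
      Hq (q4 x y α β s t) X Y = -1296 * x' ∧
      |τ * (Y : ℝ)| ≤ 4 / 3 * ρ * |((X : ℝ) + ω * Y) / τ| ∧
      3 / 4 ≤ ((X : ℝ) + ω * Y) / τ * τ' ∧ ((X : ℝ) + ω * Y) / τ * τ' ≤ 4 / 3 ∧
      σ' / 2 ≤ -(2 * ω * s) / (3 * α * τ) + t * α / (3 * τ) ∧
      -(2 * ω * s) / (3 * α * τ) + t * α / (3 * τ) ≤ 2 * σ' := by
  obtain ⟨p, q, r, s₀, det, hz, hr⟩ := hcl
  have hα0 : (0 : ℝ) < α := by exact_mod_cast h.a_pos
  have hα0' : (0 : ℝ) < α' := by exact_mod_cast h'.a_pos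
  obtain ⟨S, T, t1, t2, t3, t4, t5, t6⟩ := transfer_int (by have := h.a_pos; omega) h.cop h'.cop det hz
  obtain ⟨g1, g2, g3, g4⟩ := G3.of_dep h.a_pos h.tau_pos h.dep
  obtain ⟨g1', g2', g3', g4'⟩ := G3.of_dep h'.a_pos h'.tau_pos h'.dep
  have hτ := h.tau_pos
  have hτ' := h'.tau_pos
  set ξ : ℝ := ((p : ℝ) + ω * r) / τ with hξ
  set a : ℝ := ξ * τ' with ha
  set b : ℝ := τ * r * τ' with hb
  have hΔpos : 0 < Δ := by have := h.D_ge; linarith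
  have hΔpos' : 0 < Δ' := by have := h'.D_ge; linarith
  have hbρ : |b| ≤ ρ := by
    rw [hb, abs_mul, abs_mul, abs_of_pos hτ, abs_of_pos hτ']
    calc τ * |(r : ℝ)| * τ' = |(r : ℝ)| * τ * τ' := by ring
      _ ≤ ρ := hr
  have hb1 : |b| ≤ 1 / 100 := hbρ.trans hρ1
  set κ : ℝ := Δ' / Δ with hκ
  have hcub : a ^ 3 + 3 * l * a * b ^ 2 + c * b ^ 3 = κ := by
    have e1 := real_val h.a_pos h.tau_pos h.dep p r
    rw [t6] at e1
    rw [hκ, eq_div_iff hΔpos.ne', g1']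
    rw [e1, ha, hb, hξ]
    ring
  have hκ1 : 1 / 2 ≤ κ := by
    rw [hκ, le_div_iff₀ hΔpos]; linarith
  have hκ2 : κ ≤ 2 := by
    rw [hκ, div_le_iff₀ hΔpos]; linarith
  obtain ⟨a1, a2, a3⟩ := a_bound h.l_le h.c_le hb1 hκ1 hκ2 hcub
  set d₁ : ℝ := S * τ / (3 * α) with hd1
  set d₂ : ℝ := -(2 * ω * S) / (3 * α * τ) + T * α / (3 * τ) with hd2
  have hE : d₁ * Q1 l c a b + d₂ * Q2 c a b = τ' ^ 4 / (3 * Δ) := by
    have e1 := real_q4 h.a_pos h.tau_pos h.dep S T p r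
    rw [q4v_q4, t2] at e1
    rw [eq_div_iff (by positivity)]
    have e2 : Q1 l c a b = τ' ^ 4 * Q1 l c ξ (τ * r) := by
      rw [ha, hb]; unfold Q1; ring
    have e3 : Q2 c a b = τ' ^ 4 * Q2 c ξ (τ * r) := by
      rw [ha, hb]; unfold Q2; ring
    rw [e2, e3]
    have e4 : (3 : ℝ) = 9 * Δ * (d₁ * Q1 l c ξ (τ * r) + d₂ * Q2 c ξ (τ * r)) := by
      have : ((3 : ℤ) : ℝ) = 3 := by norm_num
      rw [← this]
      exact e1
    have e5 : (d₁ * (τ' ^ 4 * Q1 l c ξ (τ * r)) + d₂ * (τ' ^ 4 * Q2 c ξ (τ * r))) * (3 * Δ)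
        = τ' ^ 4 / 3 * (9 * Δ * (d₁ * Q1 l c ξ (τ * r) + d₂ * Q2 c ξ (τ * r))) := by ring
    rw [e5, ← e4]
    ring
  have hτ100 : τ' ≤ 1 / 100 := by
    refine h'.tau_le.trans ?_
    rw [Real.rpow_neg hK.le, ← one_div]
    exact one_div_le_one_div_of_le (by norm_num) hK1
  have he0 : 0 ≤ τ' ^ 4 / (3 * Δ) := by positivity
  have he1 : τ' ^ 4 / (3 * Δ) ≤ 1 / 1000 := by
    rw [div_le_iff₀ (by positivity)]
    have e1 : τ' ^ 4 ≤ (1 / 100) ^ 4 := pow_le_pow_left₀ hτ'.le hτ100 4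
    have := h.D_ge
    norm_num at e1
    linarith
  have hωneg : |ω'| = -ω' := abs_of_nonpos (by have := h'.om_le; linarith)
  have hσpos : 0 < σ' := by
    rw [h'.sig]
    have : 0 < |ω'| := by rw [hωneg]; have := h'.om_le; linarith
    positivity
  have hσ1 : 1 ≤ σ' := by
    have := h'.sig_ge
    nlinarith
  have hJ : QJ l c d₁ d₂ a b = 6 * σ' * κ ^ 2 := by
    have e1 := real_Jac h.a_pos h.tau_pos h.dep S T p r
    rw [t5] at e1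
    have e2 : QJ l c d₁ d₂ a b = τ' ^ 5 * QJ l c d₁ d₂ ξ (τ * r) := by
      rw [ha, hb]; unfold QJ; ring
    have e3 : (-12 * β' : ℝ) = 9 * Δ ^ 2 * QJ l c d₁ d₂ ξ (τ * r) := by
      have : ((-12 * β' : ℤ) : ℝ) = -12 * β' := by push_cast; ring
      rw [← this]
      exact e1
    have hβ' : (β' : ℝ) = 3 * α' * ω' := by
      rw [g2']; field_simp
    have e4 : σ' * (3 * α' * τ') = -2 * ω' := by
      rw [h'.sig, hωneg]
      field_simp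
    have e5 : 9 * Δ ^ 2 * QJ l c d₁ d₂ a b = 9 * Δ ^ 2 * (6 * σ' * κ ^ 2) := by
      calc 9 * Δ ^ 2 * QJ l c d₁ d₂ a b = τ' ^ 5 * (9 * Δ ^ 2 * QJ l c d₁ d₂ ξ (τ * r)) := by
            rw [e2]; ring
        _ = τ' ^ 5 * (-12 * β') := by rw [← e3]
        _ = 18 * α' * τ' ^ 5 * (-2 * ω') := by rw [hβ']; ring
        _ = 54 * σ' * (α' * τ' ^ 3) ^ 2 := by rw [← e4]; ring
        _ = 9 * Δ ^ 2 * (6 * σ' * κ ^ 2) := by
            rw [hκ, ← g1']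
            field_simp
            ring
    exact mul_left_cancel₀ (by positivity) e5
  obtain ⟨u1, u2⟩ := d2_est h.l_le h.c_le hb1 hκ1 a1 a2 a3 he0 he1 hσ1 hE hJ
  refine ⟨S, T, p, r, t1, t2, t3, t4, ?_, a1, a2, u1, u2⟩
  have hξpos : 0 < ξ := by
    by_contra hneg
    push Not at hneg
    have : ξ * τ' ≤ 0 := mul_nonpos_of_nonpos_of_nonneg hneg hτ'.le
    linarith
  have e1 : |τ * (r : ℝ)| * τ' ≤ ρ := by
    rw [abs_mul, abs_of_pos hτ]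
    calc τ * |(r : ℝ)| * τ' = |(r : ℝ)| * τ * τ' := by ring
      _ ≤ ρ := hr
  have hρ0 : 0 ≤ ρ := le_trans (by positivity) hbρ
  rw [abs_of_pos hξpos]
  have e2 : |τ * (r : ℝ)| * τ' ≤ 4 / 3 * ρ * ξ * τ' := by
    have : 4 / 3 * ρ * ξ * τ' = 4 / 3 * ρ * (ξ * τ') := by ring
    rw [this]
    nlinarith
  exact le_of_mul_le_mul_right e2 hτ'

end Pool.Agent.Work.MP_f2148a_nt.M56
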