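import Pool.Agent.Work.MP_f2148a_nt.M56.S1.SDefs
import Pool.Agent.Work.MP_f2148a_nt.M56.C.Act

set_option autoImplicit false

/-!
# MP_f2148a_nt, block S1: algebraic identities (proved)
-/

namespace Pool.Agent.Work.MP_f2148a_nt.M56

theorem psi_act (z u : Cub) (p q r s : ℤ) :
    psi (z.act p q r s) (u.act p q r s) = (p * s - q * r) ^ 3 * psi z u := by
  simp only [psi, Cub.act]
  ring

theorem Wr_act (z u : Cub) (p q r s X Y : ℤ) :
    Wr (z.act p q r s) (u.act p q r s) X Y =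
      (p * s - q * r) * Wr z u (p * X + q * Y) (r * X + s * Y) := by
  simp only [Wr, Cub.act]
  ring

theorem q4v_act (f : Fin 5 → ℤ) (p q r s X Y : ℤ) :
    q4v (q4act f p q r s) X Y = q4v f (p * X + q * Y) (r * X + s * Y) := by
  simp only [q4v, q4act]
  ring

theorem J432_act (f : Fin 5 → ℤ) (p q r s : ℤ) :
    J432 (q4act f p q r s) = (p * s - q * r) ^ 6 * J432 f := by
  simp only [J432, q4act]
  ring

theorem Hq_act (f : Fin 5 → ℤ) (p q r s X Y : ℤ) :
    Hq (q4act f p q r s) X Y = (p * s - q * r) ^ 2 * Hq f (p * X + q * Y) (r * X + s * Y) := by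
  simp only [Hq, q4act]
  ring

theorem Jac_act (z : Cub) (f : Fin 5 → ℤ) (p q r s X Y : ℤ) :
    Jac (z.act p q r s) (q4act f p q r s) X Y =
      (p * s - q * r) * Jac z f (p * X + q * Y) (r * X + s * Y) := by
  simp only [Jac, q4act, Cub.act]
  ring

theorem val_act (z : Cub) (p q r s X Y : ℤ) :
    (z.act p q r s).val X Y = z.val (p * X + q * Y) (r * X + s * Y) := by
  simp only [Cub.val, Cub.act]
  ring

theorem psi_Z0 (x y α β γ δ : ℤ) : psi (Z0 x y α β) (Z0 x y γ δ) = 0 := by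
  simp only [psi, Z0]
  ring

theorem Wr_Z0 (x y α β γ δ X Y : ℤ) :
    Wr (Z0 x y α β) (Z0 x y γ δ) X Y = 3 * (α * δ - β * γ) * F0 x y X Y := by
  simp only [Wr, Z0, F0]
  ring

theorem q4v_q4 (x y α β s t X Y : ℤ) :
    q4v (q4 x y α β s t) X Y = 3 * s * F0 x y X Y + t * G1 x y α β X Y := by
  simp only [q4v, q4, F0, G1]
  ring

end Pool.Agent.Work.MP_f2148a_nt.M56
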