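import Pool.Agent.Work.MP_f2148a_nt.M56.S1.Alg

set_option autoImplicit false

/-!
# MP_f2148a_nt, block S1: integral transfer of a second giant (proved)
-/

namespace Pool.Agent.Work.MP_f2148a_nt.M56

theorem pencil {x y α β : ℤ} (hα : α ≠ 0) (cop : IsCoprime α β) (u : Cub)
    (h : psi (Z0 x y α β) u = 0) :
    ∃ s t : ℤ, ∀ X Y : ℤ, Wr (Z0 x y α β) u X Y = q4v (q4 x y α β s t) X Y := by
  have h1 : β * (u.c - 3 * x * u.a) = α * (3 * (u.d + x * u.b + 4 * y * u.a)) := by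
    simp only [psi, Z0] at h
    linear_combination -h
  have h2 : α ∣ u.c - 3 * x * u.a := by
    have : α ∣ β * (u.c - 3 * x * u.a) := ⟨_, h1⟩
    exact cop.dvd_of_dvd_mul_left this
  obtain ⟨t, ht⟩ := h2
  have h3 : β * t = 3 * (u.d + x * u.b + 4 * y * u.a) := by
    rw [ht] at h1
    have : α * (β * t) = α * (3 * (u.d + x * u.b + 4 * y * u.a)) := by linear_combination h1
    exact mul_left_cancel₀ hα this
  refine ⟨α * u.b - β * u.a, t, fun X Y => ?_⟩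
  have hc : u.c = 3 * x * u.a + α * t := by linear_combination ht
  have hd : 3 * u.d = β * t - 3 * x * u.b - 12 * y * u.a := by linear_combination -h3
  rw [q4v_q4]
  simp only [Wr, Z0, F0, G1]
  rw [hc, hd]
  linear_combination (0 : ℤ) * hd + (-(3 * α * X ^ 2 + 2 * β * X * Y + 3 * α * x * Y ^ 2) * 0) * hd

theorem q4v_inj {f g : Fin 5 → ℤ} (h : ∀ X Y, q4v f X Y = q4v g X Y) : f = g := by
  have h0 := h 1 0
  have h4 := h 0 1
  have h1 := h 1 1
  have h2 := h 1 (-1)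
  have h3 := h 2 1
  simp only [q4v] at h0 h1 h2 h3 h4
  funext i
  fin_cases i <;> simp only <;> push_cast <;> norm_num at h0 h1 h2 h3 h4 ⊢ <;> omega

theorem transfer_int {x y α β x' y' α' β' p q r s : ℤ} (hα : α ≠ 0) (cop : IsCoprime α β)
    (cop' : IsCoprime α' β') (det : p * s - q * r = 1)
    (h : Z0 x' y' α' β' = (Z0 x y α β).act p q r s) :
    ∃ S T : ℤ, (∀ i, (3 : ℤ) ∣ q4 x y α β S T i) ∧
      3 * S * F0 x y p r + T * G1 x y α β p r = 3 ∧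
      J432 (q4 x y α β S T) = -46656 * (y' ^ 2 - x' ^ 3) ∧
      Hq (q4 x y α β S T) p r = -1296 * x' ∧
      Jac (Z0 x y α β) (q4 x y α β S T) p r = -12 * β' ∧
      (Z0 x y α β).val p r = α' := by
  obtain ⟨δ, γ', hγ⟩ := cop'
  -- δ * α' + γ' * β' = 1
  have hz : Z0 x y α β = (Z0 x' y' α' β').act s (-q) (-r) p := by
    rw [h, C.act_act]
    have e1 : p * s + q * -r = 1 := by linear_combination det
    have e2 : p * -q + q * p = 0 := by ring
    have e3 : r * s + s * -r = 0 := by ring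
    have e4 : r * -q + s * p = 1 := by linear_combination det
    rw [e1, e2, e3, e4, C.act_one]
  have hps : psi (Z0 x y α β) ((Z0 x' y' (-γ') δ).act s (-q) (-r) p) = 0 := by
    rw [hz, psi_act, psi_Z0, mul_zero]
  obtain ⟨S, T, hST⟩ := pencil hα cop _ hps
  have hq : q4 x y α β S T = q4act (q4 x' y' α' β' 1 0) s (-q) (-r) p := by
    apply q4v_inj
    intro X Y
    rw [← hST, q4v_act, q4v_q4, hz, Wr_act, Wr_Z0]
    linear_combination (3 * (α' * δ - β' * (-γ')) * F0 x' y' (s * X + -q * Y) (-r * X + p * Y)) * det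
      + (3 * F0 x' y' (s * X + -q * Y) (-r * X + p * Y)) * hγ
  have ep : s * p + -q * r = 1 := by linear_combination det
  have er : -r * p + p * r = 0 := by ring
  have ed : s * p - -q * -r = 1 := by linear_combination det
  have h3 : ∀ i, (3 : ℤ) ∣ q4 x' y' α' β' 1 0 i := by
    intro i
    fin_cases i
    · exact ⟨1, by simp [q4]⟩
    · exact ⟨0, by simp [q4]⟩
    · exact ⟨-6 * x', by simp [q4]; ring⟩
    · exact ⟨8 * y', by simp [q4]; ring⟩
    · exact ⟨-3 * x' ^ 2, by simp [q4]; ring⟩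
  refine ⟨S, T, ?_, ?_, ?_, ?_, ?_, ?_⟩
  · intro i
    rw [hq]
    obtain ⟨g, hg⟩ : ∃ g : Fin 5 → ℤ, ∀ i, q4 x' y' α' β' 1 0 i = 3 * g i := by
      choose g hg using h3
      exact ⟨g, hg⟩
    fin_cases i <;> simp only [q4act, hg]
    · exact ⟨g 0 * s ^ 4 + g 1 * s ^ 3 * (-r) + g 2 * s ^ 2 * (-r) ^ 2 + g 3 * s * (-r) ^ 3
        + g 4 * (-r) ^ 4, by ring⟩
    · exact ⟨4 * g 0 * s ^ 3 * -q + g 1 * (3 * s ^ 2 * -q * -r + s ^ 3 * p)
      + g 2 * (2 * s * -q * (-r) ^ 2 + 2 * s ^ 2 * -r * p)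
      + g 3 * (-q * (-r) ^ 3 + 3 * s * (-r) ^ 2 * p) + 4 * g 4 * (-r) ^ 3 * p, by ring⟩
    · exact ⟨6 * g 0 * s ^ 2 * (-q) ^ 2 + g 1 * (3 * s * (-q) ^ 2 * -r + 3 * s ^ 2 * -q * p)
      + g 2 * ((-q) ^ 2 * (-r) ^ 2 + 4 * s * -q * -r * p + s ^ 2 * p ^ 2)
      + g 3 * (3 * -q * (-r) ^ 2 * p + 3 * s * -r * p ^ 2) + 6 * g 4 * (-r) ^ 2 * p ^ 2, by ring⟩
    · exact ⟨4 * g 0 * s * (-q) ^ 3 + g 1 * ((-q) ^ 3 * -r + 3 * s * (-q) ^ 2 * p)
      + g 2 * (2 * (-q) ^ 2 * -r * p + 2 * s * -q * p ^ 2)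
      + g 3 * (3 * -q * -r * p ^ 2 + s * p ^ 3) + 4 * g 4 * -r * p ^ 3, by ring⟩
    · exact ⟨g 0 * (-q) ^ 4 + g 1 * (-q) ^ 3 * p + g 2 * (-q) ^ 2 * p ^ 2 + g 3 * -q * p ^ 3
        + g 4 * p ^ 4, by ring⟩
  · rw [← q4v_q4, hq, q4v_act, ep, er]
    simp [q4v, q4]
  · rw [hq, J432_act, ed]
    simp only [J432, q4]
    ring
  · rw [hq, Hq_act, ed, ep, er]
    simp only [Hq, q4]
    ring
  · rw [hq, hz, Jac_act, ed, ep, er]
    simp only [Jac, q4, Z0]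
    ring
  · rw [hz, val_act, ep, er]
    simp [Cub.val, Z0]

end Pool.Agent.Work.MP_f2148a_nt.M56
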