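import Pool.Agent.Work.MP_f2148a_nt.M56.Defs

/-!
# MP_f2148a_nt, block S1: definitions (fixed, do not change)

`psi` is the invariant symplectic form on binary cubics, `Wr` the Wronskian `z_X u_Y - z_Y u_X`,
`q4v` the value of the quartic with coefficients `f`, `Jac` the Jacobian `z_X f_Y - z_Y f_X`,
`q4act` the coefficients of `f(pX+qY, rX+sY)`.
`Own` collects the data that a giant pair `(x,y)` produces itself.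
-/

namespace Pool.Agent.Work.MP_f2148a_nt.M56

/-- The invariant symplectic form on binary cubics. -/
def psi (z u : Cub) : ℤ := 3 * (z.a * u.d - z.d * u.a) - (z.b * u.c - z.c * u.b)

/-- The Wronskian `z_X u_Y - z_Y u_X` of two binary cubics. -/
def Wr (z u : Cub) (X Y : ℤ) : ℤ :=
  (3 * z.a * X ^ 2 + 2 * z.b * X * Y + z.c * Y ^ 2)
      * (u.b * X ^ 2 + 2 * u.c * X * Y + 3 * u.d * Y ^ 2)
    - (z.b * X ^ 2 + 2 * z.c * X * Y + 3 * z.d * Y ^ 2)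
      * (3 * u.a * X ^ 2 + 2 * u.b * X * Y + u.c * Y ^ 2)

/-- The value of the binary quartic with coefficients `f`. -/
def q4v (f : Fin 5 → ℤ) (X Y : ℤ) : ℤ :=
  f 0 * X ^ 4 + f 1 * X ^ 3 * Y + f 2 * X ^ 2 * Y ^ 2 + f 3 * X * Y ^ 3 + f 4 * Y ^ 4

/-- The Jacobian `z_X f_Y - z_Y f_X` of a binary cubic and a binary quartic. -/
def Jac (z : Cub) (f : Fin 5 → ℤ) (X Y : ℤ) : ℤ :=
  (3 * z.a * X ^ 2 + 2 * z.b * X * Y + z.c * Y ^ 2)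
      * (f 1 * X ^ 3 + 2 * f 2 * X ^ 2 * Y + 3 * f 3 * X * Y ^ 2 + 4 * f 4 * Y ^ 3)
    - (z.b * X ^ 2 + 2 * z.c * X * Y + 3 * z.d * Y ^ 2)
      * (4 * f 0 * X ^ 3 + 3 * f 1 * X ^ 2 * Y + 2 * f 2 * X * Y ^ 2 + f 3 * Y ^ 3)

/-- The value of a binary cubic. -/
def Cub.val (z : Cub) (X Y : ℤ) : ℤ :=
  z.a * X ^ 3 + z.b * X ^ 2 * Y + z.c * X * Y ^ 2 + z.d * Y ^ 3

/-- The coefficients of the quartic `f(pX+qY, rX+sY)`. -/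
def q4act (f : Fin 5 → ℤ) (p q r s : ℤ) : Fin 5 → ℤ
  | 0 => f 0 * p ^ 4 + f 1 * p ^ 3 * r + f 2 * p ^ 2 * r ^ 2 + f 3 * p * r ^ 3 + f 4 * r ^ 4
  | 1 => 4 * f 0 * p ^ 3 * q + f 1 * (3 * p ^ 2 * q * r + p ^ 3 * s)
      + f 2 * (2 * p * q * r ^ 2 + 2 * p ^ 2 * r * s) + f 3 * (q * r ^ 3 + 3 * p * r ^ 2 * s)
      + 4 * f 4 * r ^ 3 * s
  | 2 => 6 * f 0 * p ^ 2 * q ^ 2 + f 1 * (3 * p * q ^ 2 * r + 3 * p ^ 2 * q * s)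
      + f 2 * (q ^ 2 * r ^ 2 + 4 * p * q * r * s + p ^ 2 * s ^ 2)
      + f 3 * (3 * q * r ^ 2 * s + 3 * p * r * s ^ 2) + 6 * f 4 * r ^ 2 * s ^ 2
  | 3 => 4 * f 0 * p * q ^ 3 + f 1 * (q ^ 3 * r + 3 * p * q ^ 2 * s)
      + f 2 * (2 * q ^ 2 * r * s + 2 * p * q * s ^ 2) + f 3 * (3 * q * r * s ^ 2 + p * s ^ 3)
      + 4 * f 4 * r * s ^ 3
  | 4 => f 0 * q ^ 4 + f 1 * q ^ 3 * s + f 2 * q ^ 2 * s ^ 2 + f 3 * q * s ^ 3 + f 4 * s ^ 4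

/-- The data which a giant pair `(x,y)` produces itself (`A = K^h` with `39/100 ≤ h ≤ 31/75`). -/
structure Own (K A : ℝ) (x y α β : ℤ) (ω τ Δ l c σ : ℝ) : Prop where
  a_pos : 1 ≤ α
  cop : IsCoprime α β
  om : ω = (β : ℝ) / (3 * α)
  om_le : ω ≤ -1000
  tau_pos : 0 < τ
  tau_le : τ ≤ K ^ (-(1 / 5) : ℝ)
  dep : Dep (Z0 x y α β) ω τ Δ l c
  disc : (Z0 x y α β).disc ≠ 0
  l_le : |l| ≤ 1
  c_le : |c| ≤ 1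
  nrm : |l| = 1 ∨ |c| = 1
  D_ge : 29 / 100 ≤ Δ
  D_le : Δ ^ 2 ≤ A
  sig : σ = 2 * |ω| / (3 * α * τ)
  sigD : A ^ 2 ≤ 4 * (σ ^ 3 * Δ)
  sig_ge : A ≤ 4 * σ ^ 2
  Dsig_le : Δ * σ ≤ 5 * A ^ 2
  x_ge : Δ * σ ≤ τ ^ 2 * Real.sqrt x
  x_le : τ ^ 2 * Real.sqrt x ≤ 2 * (Δ * σ)
  type : (|l| = 1 ∧ |c| ≤ 1 / 100 ∧ |c| * (Δ * σ) ^ 3 ≤ 20 * K) ∨
    (Δ * σ ≤ 10 * K ^ (1 / 3 : ℝ) ∧ Δ * A ≤ 30 * K ^ (1 / 2 : ℝ))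

/-- The numerical hypotheses on the real quantities attached to a giant: `t = √x`, `y = t³ + η`,
`ω = β/(3α) = -t + w`, `B = K^(1/5)`. -/
structure Num (K A B t α w η : ℝ) : Prop where
  K_ge : 1 ≤ K
  A_ge : 2 ≤ A
  B_ge : 1 ≤ B
  t_ge : 10000 ≤ t
  A_le : 1000 * A ≤ t
  a_ge : 1 ≤ α
  a_le : α ^ 2 * A ^ 2 ≤ t ^ 3
  w_le : 9 * α ^ 2 * w ^ 2 * t ^ 3 ≤ A ^ 2
  eta_le : |η| * t ^ 3 ≤ K
  KA : 64 * K ^ 2 ≤ A ^ 6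
  A8 : 1000 * A ^ 8 ≤ K * t ^ 2
  AB : 6 * A ^ 2 * B ^ 2 ≤ t
  KB : 800 * K * B ^ 6 ≤ t ^ 3

end Pool.Agent.Work.MP_f2148a_nt.M56
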