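import Pool.Agent.Work.MP_f2148a_nt.M56.S1.SDefs

set_option autoImplicit false

/-!
MODULE S1/Sz (S). First consequences of `Num`: sizes of `w`, `l' = w(2t-w)`, `c' = 2w³-6tw²-4η`.

PROOF. `9w²t³ ≤ 9α²w²t³ ≤ A² ≤ t²/10⁶` (as `1 ≤ α`, `1000A ≤ t`), so `9·10⁶ w² t ≤ 1`, and with `t ≥ 10⁴` `|w| ≤ 1/1000`
(indeed much smaller). `2t - w` lies in `[1999t/1000, 2001t/1000]`, hence `l_le`, `l_ge` (`|w(2t-w)| = |w|(2t-w)`).
`|2w³| ≤ (1/500) w² ≤ (1/1000) t w²`, so `|c'| ≤ (6001/1000) t w² + 4|η|`.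
-/

namespace Pool.Agent.Work.MP_f2148a_nt.M56

theorem sizes {K A B t α w η : ℝ} (h : Num K A B t α w η) :
    |w| ≤ 1 / 1000 ∧ |w * (2 * t - w)| ≤ 2001 / 1000 * (t * |w|) ∧
      1999 / 1000 * (t * |w|) ≤ |w * (2 * t - w)| ∧
      |2 * w ^ 3 - 6 * t * w ^ 2 - 4 * η| ≤ 6001 / 1000 * (t * w ^ 2) + 4 * |η| := by
  have ht := h.t_ge
  have ht0 : (0 : ℝ) < t := by linarith
  have hA := h.A_ge
  have hA1 := h.A_le
  have ha := h.a_ge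
  have hw := h.w_le
  have hAt : 1000000 * A ^ 2 ≤ t ^ 2 := by
    have := pow_le_pow_left₀ (by linarith : (0 : ℝ) ≤ 1000 * A) hA1 2
    nlinarith
  have h1 : w ^ 2 * t ^ 3 ≤ α ^ 2 * w ^ 2 * t ^ 3 := by
    have h2 : (1 : ℝ) ≤ α ^ 2 := one_le_pow₀ ha
    have h3 : 0 ≤ w ^ 2 * t ^ 3 := by positivity
    nlinarith
  have h4 : 9000000 * (w ^ 2 * t) ≤ 1 := by
    have h5 : t ^ 2 * (9000000 * (w ^ 2 * t)) ≤ t ^ 2 * 1 := by nlinarith
    exact le_of_mul_le_mul_left h5 (by positivity)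
  have h6 : w ^ 2 ≤ (1 / 1000) ^ 2 := by
    have h7 : w ^ 2 * 10000 ≤ w ^ 2 * t := mul_le_mul_of_nonneg_left ht (sq_nonneg w)
    nlinarith
  have h8 : |w| ≤ 1 / 1000 := abs_le_of_sq_le_sq h6 (by norm_num)
  obtain ⟨h9, h10⟩ := abs_le.mp h8
  have hw0 := abs_nonneg w
  have h11 : |2 * t - w| = 2 * t - w := abs_of_pos (by linarith)
  refine ⟨h8, ?_, ?_, ?_⟩
  · rw [abs_mul, h11]
    have h12 : 2 * t - w ≤ 2001 / 1000 * t := by linarith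
    nlinarith [mul_le_mul_of_nonneg_left h12 hw0]
  · rw [abs_mul, h11]
    have h12 : 1999 / 1000 * t ≤ 2 * t - w := by linarith
    nlinarith [mul_le_mul_of_nonneg_left h12 hw0]
  · have h13 : |2 * w ^ 3 - 6 * t * w ^ 2 - 4 * η| ≤ |2 * w ^ 3| + |6 * t * w ^ 2| + |4 * η| :=
      (abs_sub _ _).trans (by linarith [abs_sub (2 * w ^ 3) (6 * t * w ^ 2)])
    have h14 : |2 * w ^ 3| = 2 * (|w| * w ^ 2) := by
      rw [abs_mul, abs_pow, abs_of_pos (by norm_num : (0 : ℝ) < 2), pow_succ, sq_abs]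
      ring
    have h15 : |6 * t * w ^ 2| = 6 * t * w ^ 2 := abs_of_nonneg (by positivity)
    have h16 : |4 * η| = 4 * |η| := by
      rw [abs_mul, abs_of_pos (by norm_num : (0 : ℝ) < 4)]
    have h17 : |w| * w ^ 2 ≤ 1 / 1000 * w ^ 2 := mul_le_mul_of_nonneg_right h8 (sq_nonneg w)
    have h18 : w ^ 2 * 10000 ≤ w ^ 2 * t := mul_le_mul_of_nonneg_left ht (sq_nonneg w)
    rw [h14, h15, h16] at h13
    nlinarith [sq_nonneg w]

end Pool.Agent.Work.MP_f2148a_nt.M56
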